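import Pool.Agent.Work.MP_e9b29d_win.Interface

set_option autoImplicit false

open Complex MeasureTheory Set

namespace Pool.Agent.Work.MP_e9b29d_win

namespace CHEBaux

theorem large : ∃ n₀ : ℕ, ∀ n : ℕ, n₀ ≤ n → (n : ℝ) * (Real.log 2 / 2) ≤ Chebyshev.theta n := by
  have hl2 : 0 < Real.log 2 := Real.log_pos (by norm_num)
  have h1 := isLittleO_log_rpow_atTop (show (0 : ℝ) < 1 / 2 by norm_num)
  have h2 := h1.bound (show 0 < Real.log 2 / 16 by positivity)
  obtain ⟨x₀, hx₀⟩ := Filter.eventually_atTop.1 h2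
  obtain ⟨n₀, hn₀⟩ := exists_nat_ge (max x₀ 2)
  refine ⟨n₀, fun n hn => ?_⟩
  have hn1 : (n₀ : ℝ) ≤ n := by exact_mod_cast hn
  have hx : x₀ ≤ (n : ℝ) := (le_max_left _ _).trans (hn₀.trans hn1)
  have h2n : (2 : ℝ) ≤ n := (le_max_right _ _).trans (hn₀.trans hn1)
  have h3 := hx₀ n hx
  have hlog : 0 ≤ Real.log n := Real.log_nonneg (by linarith)
  rw [Real.norm_eq_abs, Real.norm_eq_abs, abs_of_nonneg hlog, abs_of_nonneg (by positivity),
    ← Real.sqrt_eq_rpow] at h3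
  have hs0 : 0 ≤ √(n : ℝ) := Real.sqrt_nonneg _
  have hs : √(n : ℝ) * √(n : ℝ) = n := Real.mul_self_sqrt (by linarith)
  have hs1 : √(n : ℝ) ≤ n := by
    have : (1 : ℝ) ≤ √(n : ℝ) := by
      rw [Real.one_le_sqrt]; linarith
    nlinarith
  have h4 : Real.log ((n : ℝ) + 1) ≤ 2 * Real.log n := by
    have h5 : Real.log ((n : ℝ) + 1) ≤ Real.log ((n : ℝ) ^ 2) :=
      Real.log_le_log (by linarith) (by nlinarith)
    rw [Real.log_pow] at h5
    push_cast at h5
    exact h5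
  have h5 := Chebyshev.theta_ge n
  have h6 : √(n : ℝ) * Real.log n ≤ √(n : ℝ) * (Real.log 2 / 16 * √(n : ℝ)) :=
    mul_le_mul_of_nonneg_left h3 hs0
  have h7 : √(n : ℝ) * (Real.log 2 / 16 * √(n : ℝ)) = Real.log 2 / 16 * n := by
    calc √(n : ℝ) * (Real.log 2 / 16 * √(n : ℝ)) = Real.log 2 / 16 * (√(n : ℝ) * √(n : ℝ)) := by
          ring
      _ = _ := by rw [hs]
  have h8 : Real.log 2 / 16 * √(n : ℝ) ≤ Real.log 2 / 16 * n :=
    mul_le_mul_of_nonneg_left hs1 (by positivity)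
  nlinarith

end CHEBaux

open CHEBaux in
theorem p_CHEB : Stmt_CHEB := by
  have hl2 : 0 < Real.log 2 := Real.log_pos (by norm_num)
  obtain ⟨n₀, hn₀⟩ := large
  have hc : 0 < min (Real.log 2 / 2) (Real.log 2 / ((n₀ : ℝ) + 1)) :=
    lt_min (by positivity) (by positivity)
  refine ⟨min (Real.log 2 / 2) (Real.log 2 / ((n₀ : ℝ) + 1)), hc, ?_⟩
  intro y σ hy h0 _
  have hy2 : (2 : ℝ) ≤ y := by exact_mod_cast hy
  have hy0 : (0 : ℝ) < y := by linarith
  have hθ : min (Real.log 2 / 2) (Real.log 2 / ((n₀ : ℝ) + 1)) * y ≤ Chebyshev.theta y := by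
    rcases le_or_gt n₀ y with h | h
    · have h1 := hn₀ y h
      have h2 : min (Real.log 2 / 2) (Real.log 2 / ((n₀ : ℝ) + 1)) * y ≤ Real.log 2 / 2 * y :=
        mul_le_mul_of_nonneg_right (min_le_left _ _) hy0.le
      linarith
    · have h1 : Chebyshev.theta 2 ≤ Chebyshev.theta y := Chebyshev.theta_mono hy2
      have h2 : Real.log 2 ≤ Chebyshev.theta 2 := by
        rw [Chebyshev.theta_eq_log_primorial]
        have h3 : ⌊(2 : ℝ)⌋₊ = 2 := by norm_num
        rw [h3]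
        have h4 : primorial 2 = 2 := by decide
        rw [h4]
        norm_num
      have h3 : min (Real.log 2 / 2) (Real.log 2 / ((n₀ : ℝ) + 1)) * y
          ≤ Real.log 2 / ((n₀ : ℝ) + 1) * ((n₀ : ℝ) + 1) := by
        apply mul_le_mul (min_le_right _ _) _ hy0.le (by positivity)
        have : (y : ℝ) ≤ n₀ := by exact_mod_cast h.le
        linarith
      have h4 : Real.log 2 / ((n₀ : ℝ) + 1) * ((n₀ : ℝ) + 1) = Real.log 2 := by
        field_simp
      linarith
  have hsum : Chebyshev.theta y = ∑ p ∈ (Finset.range (y + 1)).filter Nat.Prime, Real.log p := by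
    unfold Chebyshev.theta
    rw [Nat.floor_natCast]
    apply Finset.sum_congr _ fun _ _ => rfl
    ext p
    simp only [Finset.mem_filter, Finset.mem_Ioc, Finset.mem_range]
    constructor
    · rintro ⟨⟨_, h2⟩, h3⟩
      exact ⟨by omega, h3⟩
    · rintro ⟨h2, h3⟩
      exact ⟨⟨h3.pos, by omega⟩, h3⟩
  have hTh : (y : ℝ) ^ (-σ) * Chebyshev.theta y ≤ Th y σ := by
    rw [hsum, Finset.mul_sum]
    unfold Th
    apply Finset.sum_le_sum
    intro p hp
    rw [Finset.mem_filter, Finset.mem_range] at hp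
    have hp0 : (0 : ℝ) < p := by exact_mod_cast hp.2.pos
    have hpy : (p : ℝ) ≤ y := by exact_mod_cast (by omega : p ≤ y)
    have hlp : 0 ≤ Real.log p := Real.log_nonneg (by exact_mod_cast hp.2.one_lt.le)
    rw [mul_comm]
    apply mul_le_mul_of_nonneg_left _ hlp
    exact Real.rpow_le_rpow_of_nonpos hp0 hpy (by linarith)
  have hfin : min (Real.log 2 / 2) (Real.log 2 / ((n₀ : ℝ) + 1)) * (y : ℝ) ^ (1 - σ)
      = (y : ℝ) ^ (-σ) * (min (Real.log 2 / 2) (Real.log 2 / ((n₀ : ℝ) + 1)) * y) := by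
    rw [show (1 : ℝ) - σ = 1 + -σ by ring, Real.rpow_add hy0, Real.rpow_one]
    ring
  rw [hfin]
  exact (mul_le_mul_of_nonneg_left hθ (Real.rpow_nonneg hy0.le _)).trans hTh

end Pool.Agent.Work.MP_e9b29d_win
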