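import Pool.Agent.Work.MP_e9b29d_win.Interface

/-!
# Block DIAG: the diagonal for the divisors of a primorial
-/

set_option autoImplicit false

open Complex MeasureTheory Set

namespace Pool.Agent.Work.MP_e9b29d_win

namespace DIAG

theorem sqf (y : ℕ) : Squarefree (primorial y) := squarefree_primorial y

theorem pf (y : ℕ) : (primorial y).primeFactors = (Finset.range (y + 1)).filter Nat.Prime := by
  unfold primorial
  exact Nat.primeFactors_prod fun p hp => (Finset.mem_filter.mp hp).2

/-- half of the divisors of a squarefree number are divisible by a given prime factor -/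
theorem half (P p : ℕ) (hP : Squarefree P) (hp : p ∈ P.primeFactors) :
    2 * (P.divisors.filter fun b => p ∣ b).card = P.divisors.card := by
  have hpp : p.Prime := Nat.prime_of_mem_primeFactors hp
  obtain ⟨M, rfl⟩ := Nat.dvd_of_mem_primeFactors hp
  have hM : M ≠ 0 := by
    rintro rfl
    rw [mul_zero] at hP
    exact not_squarefree_zero hP
  have hcop : Nat.Coprime p M := (Nat.squarefree_mul_iff.mp hP).1
  have h1 : ((p * M).divisors.filter fun b => p ∣ b) = M.divisors.image (fun c => p * c) := by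
    ext b
    simp only [Finset.mem_filter, Nat.mem_divisors, Finset.mem_image]
    constructor
    · rintro ⟨⟨h, _⟩, c, rfl⟩
      exact ⟨c, ⟨Nat.dvd_of_mul_dvd_mul_left hpp.pos h, hM⟩, rfl⟩
    · rintro ⟨c, ⟨h, _⟩, rfl⟩
      exact ⟨⟨Nat.mul_dvd_mul_left p h, mul_ne_zero hpp.ne_zero hM⟩, Nat.dvd_mul_right p c⟩
  have h2 : (M.divisors.image (fun c => p * c)).card = M.divisors.card :=
    Finset.card_image_of_injective _ fun a b h => Nat.eq_of_mul_eq_mul_left hpp.pos h
  rw [h1, h2, hcop.card_divisors_mul, hpp.divisors, Finset.card_pair hpp.one_lt.ne]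

/-- the inner sum for a fixed `b` -/
theorem inner (P b : ℕ) (q : ℂ) (σ : ℝ) (hq : ‖q‖ = 1) (hP : Squarefree P) (hb : b ∈ P.divisors) :
    (∑ a ∈ P.divisors, if a ∣ b then q ^ a.primeFactors.card *
      (starRingEnd ℂ) (q ^ b.primeFactors.card) *
      ((ArithmeticFunction.vonMangoldt (b / a) * ((b / a : ℕ) : ℝ) ^ (-σ) : ℝ) : ℂ) else 0) =
    ∑ p ∈ b.primeFactors, (starRingEnd ℂ) q * ((Real.log p * (p : ℝ) ^ (-σ) : ℝ) : ℂ) := by
  have hP0 : P ≠ 0 := hP.ne_zero
  have hbP : b ∣ P := (Nat.mem_divisors.mp hb).1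
  have hb0 : b ≠ 0 := fun h => hP0 (Nat.eq_zero_of_zero_dvd (h ▸ hbP))
  have hbsq : Squarefree b := hP.squarefree_of_dvd hbP
  set g : ℕ → ℂ := fun a => q ^ a.primeFactors.card *
      (starRingEnd ℂ) (q ^ b.primeFactors.card) *
      ((ArithmeticFunction.vonMangoldt (b / a) * ((b / a : ℕ) : ℝ) ^ (-σ) : ℝ) : ℂ) with hg
  have h1 : (∑ a ∈ P.divisors, if a ∣ b then g a else 0) = ∑ a ∈ b.divisors, g a := by
    rw [← Finset.sum_filter]
    refine Finset.sum_congr ?_ fun _ _ => rfl
    ext a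
    simp only [Finset.mem_filter, Nat.mem_divisors]
    exact ⟨fun h => ⟨h.2, hb0⟩, fun h => ⟨⟨h.1.trans hbP, hP0⟩, h.1⟩⟩
  have h2 : ∑ a ∈ b.divisors, g a = ∑ n ∈ b.divisors, g (b / n) :=
    (Nat.sum_div_divisors b g).symm
  have h3 : ∑ n ∈ b.divisors, g (b / n) = ∑ p ∈ b.primeFactors, g (b / p) := by
    refine (Finset.sum_subset ?_ ?_).symm
    · intro p hp
      exact Nat.mem_divisors.mpr ⟨Nat.dvd_of_mem_primeFactors hp, hb0⟩
    · intro n hn hnp
      have hnb : n ∣ b := (Nat.mem_divisors.mp hn).1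
      have hdiv : b / (b / n) = n := Nat.div_div_self hnb hb0
      have hL : ArithmeticFunction.vonMangoldt n = 0 := by
        rw [ArithmeticFunction.vonMangoldt_eq_zero_iff]
        intro hpp
        apply hnp
        have hsq : Squarefree n := hbsq.squarefree_of_dvd hnb
        have hprime : n.Prime := by
          obtain ⟨r, k, hr, hk, rfl⟩ := hpp
          have hr' : r.Prime := Nat.prime_iff.mpr hr
          have hk1 : k = 1 := ((Nat.squarefree_pow_iff hr'.ne_one hk.ne').mp hsq).2
          rw [hk1, pow_one]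
          exact hr'
        exact Nat.mem_primeFactors.mpr ⟨hprime, hnb, hb0⟩
      simp only [hg, hdiv, hL, zero_mul, Complex.ofReal_zero, mul_zero]
  have h4 : (∑ a ∈ P.divisors, if a ∣ b then g a else 0) = ∑ p ∈ b.primeFactors, g (b / p) := by
    rw [h1, h2, h3]
  refine h4.trans (Finset.sum_congr rfl fun p hp => ?_)
  have hpp : p.Prime := Nat.prime_of_mem_primeFactors hp
  have hpb : p ∣ b := Nat.dvd_of_mem_primeFactors hp
  obtain ⟨a, rfl⟩ := hpb
  have hcop : Nat.Coprime p a := (Nat.squarefree_mul_iff.mp hbsq).1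
  have ha0 : a ≠ 0 := fun h => hb0 (by rw [h, mul_zero])
  have e1 : p * a / p = a := Nat.mul_div_cancel_left a hpp.pos
  have e2 : p * a / a = p := Nat.mul_div_cancel p (Nat.pos_of_ne_zero ha0)
  have e3 : (p * a).primeFactors.card = a.primeFactors.card + 1 := by
    rw [hcop.primeFactors_mul, Finset.card_union_of_disjoint hcop.disjoint_primeFactors,
      hpp.primeFactors, Finset.card_singleton, add_comm]
  simp only [hg, e1, e2, e3, ArithmeticFunction.vonMangoldt_apply_prime hpp]
  have e4 : q ^ a.primeFactors.card * (starRingEnd ℂ) (q ^ (a.primeFactors.card + 1)) =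
      (starRingEnd ℂ) q := by
    rw [map_pow, pow_succ, ← mul_assoc, ← mul_pow, Complex.mul_conj, Complex.normSq_eq_norm_sq, hq]
    simp
  rw [e4]

end DIAG

/-- `DIAG` -/
theorem p_DIAG : Stmt_DIAG := by
  intro y q σ hq
  have hP := DIAG.sqf y
  have hP0 : primorial y ≠ 0 := hP.ne_zero
  unfold Dg
  rw [Finset.sum_comm]
  rw [Finset.sum_congr rfl fun b hb => DIAG.inner (primorial y) b q σ hq hP hb]
  have h1 : ∀ b ∈ (primorial y).divisors,
      (∑ p ∈ b.primeFactors, (starRingEnd ℂ) q * ((Real.log p * (p : ℝ) ^ (-σ) : ℝ) : ℂ)) =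
      ∑ p ∈ (primorial y).primeFactors, if p ∣ b then
        (starRingEnd ℂ) q * ((Real.log p * (p : ℝ) ^ (-σ) : ℝ) : ℂ) else 0 := by
    intro b hb
    have hbP : b ∣ primorial y := (Nat.mem_divisors.mp hb).1
    have hb0 : b ≠ 0 := fun h => hP0 (Nat.eq_zero_of_zero_dvd (h ▸ hbP))
    rw [← Finset.sum_filter]
    refine Finset.sum_congr ?_ fun _ _ => rfl
    ext p
    simp only [Finset.mem_filter, Nat.mem_primeFactors]
    exact ⟨fun h => ⟨⟨h.1, h.2.1.trans hbP, hP0⟩, h.2.1⟩, fun h => ⟨h.1.1, h.2, hb0⟩⟩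
  rw [Finset.sum_congr rfl h1, Finset.sum_comm]
  have h2 : ∀ p ∈ (primorial y).primeFactors,
      (∑ b ∈ (primorial y).divisors, if p ∣ b then
        (starRingEnd ℂ) q * ((Real.log p * (p : ℝ) ^ (-σ) : ℝ) : ℂ) else 0) =
      (starRingEnd ℂ) q * (((((primorial y).divisors.card : ℝ) / 2) *
        (Real.log p * (p : ℝ) ^ (-σ)) : ℝ) : ℂ) := by
    intro p hp
    rw [← Finset.sum_filter, Finset.sum_const, nsmul_eq_mul]
    have h3 : (((primorial y).divisors.filter fun b => p ∣ b).card : ℝ) =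
        ((primorial y).divisors.card : ℝ) / 2 := by
      have := DIAG.half (primorial y) p hP hp
      rw [← this]
      push_cast
      ring
    have h4 : ((((primorial y).divisors.filter fun b => p ∣ b).card : ℕ) : ℂ) =
        ((((primorial y).divisors.card : ℝ) / 2 : ℝ) : ℂ) := by
      rw [← h3]
      push_cast
      rfl
    rw [h4]
    push_cast
    ring
  rw [Finset.sum_congr rfl h2, ← Finset.mul_sum, DIAG.pf]
  congr 1
  rw [← Complex.ofReal_sum, ← Finset.mul_sum]
  rfl

end Pool.Agent.Work.MP_e9b29d_win
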