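import Pool.Agent.Work.MP_e9b29d_win.Interface

set_option autoImplicit false

open Complex MeasureTheory Set

namespace Pool.Agent.Work.MP_e9b29d_win

namespace FINB

theorem num1 (N H : ℝ) (hN : 1 ≤ N) (hH : 100000 ≤ H) (h : N ^ 50 ≤ H) : 107 * N ^ 6 ≤ H := by
  by_contra hc
  push Not at hc
  have hH0 : 0 < H := by linarith
  have h1 : H ^ 8 < (107 * N ^ 6) ^ 8 := pow_lt_pow_left₀ hc hH0.le (by norm_num)
  have h2 : (107 * N ^ 6) ^ 8 = 107 ^ 8 * N ^ 48 := by ring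
  have h3 : N ^ 48 ≤ N ^ 50 := pow_le_pow_right₀ hN (by norm_num)
  have h4 : H ^ 8 < 107 ^ 8 * H := by
    calc H ^ 8 < 107 ^ 8 * N ^ 48 := by rw [← h2]; exact h1
      _ ≤ 107 ^ 8 * H := by
          apply mul_le_mul_of_nonneg_left (h3.trans h) (by norm_num)
  have h5 : H ^ 7 < 107 ^ 8 := by
    have h6 : H ^ 7 * H < 107 ^ 8 * H := by
      calc H ^ 7 * H = H ^ 8 := by ring
        _ < 107 ^ 8 * H := h4
    exact lt_of_mul_lt_mul_right h6 hH0.le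
  have h7 : (100000 : ℝ) ^ 7 ≤ H ^ 7 := pow_le_pow_left₀ (by norm_num) hH 7
  have h8 : (107 : ℝ) ^ 8 < 100000 ^ 7 := by norm_num
  linarith

theorem exp_neg_le {x : ℝ} (hx : 0 < x) : Real.exp (-x) ≤ 1 / x := by
  rw [Real.exp_neg, ← one_div]
  apply one_div_le_one_div_of_le hx
  linarith [Real.add_one_le_exp x]

theorem e1 (N D H : ℝ) (hN : 1 ≤ N) (hH : 100000 ≤ H) (h : N ^ 50 ≤ H) (hD0 : 0 ≤ D)
    (hD : D ≤ N) : D ^ 2 * N ^ 2 * Real.exp (-(H / (16 * N ^ 2))) ≤ 1 := by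
  have hH0 : 0 < H := by linarith
  have hN0 : 0 < N := by linarith
  have hx : 0 < H / (16 * N ^ 2) := by positivity
  have h1 := exp_neg_le hx
  have h2 : 1 / (H / (16 * N ^ 2)) = 16 * N ^ 2 / H := by
    field_simp
  rw [h2] at h1
  have h3 : D ^ 2 ≤ N ^ 2 := pow_le_pow_left₀ hD0 hD 2
  have h4 : D ^ 2 * N ^ 2 * Real.exp (-(H / (16 * N ^ 2))) ≤ N ^ 2 * N ^ 2 * (16 * N ^ 2 / H) := by
    gcongr
  refine h4.trans ?_
  have h5 : N ^ 2 * N ^ 2 * (16 * N ^ 2 / H) = 16 * N ^ 6 / H := by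
    field_simp
  rw [h5, div_le_one hH0]
  have h6 := num1 N H hN hH h
  have h7 : 0 < N ^ 6 := by positivity
  linarith

theorem e2 (N D H : ℝ) (hN : 1 ≤ N) (hH : 100000 ≤ H) (h : N ^ 50 ≤ H) (hD0 : 0 ≤ D)
    (hD : D ≤ N) :
    8 * Real.exp (H / 20) * D ^ 2 * N ^ 2 * Real.exp (-(H / 8)) ≤ 1 := by
  have hH0 : 0 < H := by linarith
  have hN0 : 0 < N := by linarith
  have hx : 0 < 3 * H / 40 := by positivity
  have h1 := exp_neg_le hx
  have h2 : 1 / (3 * H / 40) = 40 / (3 * H) := by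
    field_simp
  rw [h2] at h1
  have h3 : D ^ 2 ≤ N ^ 2 := pow_le_pow_left₀ hD0 hD 2
  have h0 : Real.exp (H / 20) * Real.exp (-(H / 8)) = Real.exp (-(3 * H / 40)) := by
    rw [← Real.exp_add]; congr 1; ring
  have h4 : 8 * Real.exp (H / 20) * D ^ 2 * N ^ 2 * Real.exp (-(H / 8)) =
      8 * D ^ 2 * N ^ 2 * Real.exp (-(3 * H / 40)) := by
    rw [← h0]; ring
  rw [h4]
  have h5 : 8 * D ^ 2 * N ^ 2 * Real.exp (-(3 * H / 40)) ≤ 8 * N ^ 2 * N ^ 2 * (40 / (3 * H)) := by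
    gcongr
  refine h5.trans ?_
  have h6 : 8 * N ^ 2 * N ^ 2 * (40 / (3 * H)) = (320 / 3) * N ^ 4 / H := by
    field_simp; ring
  rw [h6, div_le_one hH0]
  have h7 := num1 N H hN hH h
  have h8 : N ^ 4 ≤ N ^ 6 := pow_le_pow_right₀ hN (by norm_num)
  have h9 : 0 < N ^ 4 := by positivity
  linarith

theorem c0_nonneg : 0 ≤ C0 := by
  unfold C0
  exact tsum_nonneg fun n => div_nonneg ArithmeticFunction.vonMangoldt_nonneg (by positivity)

theorem prim (y : ℕ) (H : ℝ) (hH : 0 < H) (hy : 100 * (y : ℝ) ≤ Real.log H) :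
    ((primorial y : ℕ) : ℝ) ^ 50 ≤ H := by
  have h4 : (4 : ℝ) ≤ Real.exp 2 := by
    have h1 : (2 : ℝ) ≤ Real.exp 1 := by linarith [Real.add_one_le_exp (1 : ℝ)]
    have h2 : Real.exp 2 = Real.exp 1 * Real.exp 1 := by
      rw [← Real.exp_add]; norm_num
    rw [h2]
    nlinarith
  have h5 : ((primorial y : ℕ) : ℝ) ≤ (4 : ℝ) ^ y := by
    exact_mod_cast primorial_le_four_pow y
  calc ((primorial y : ℕ) : ℝ) ^ 50 ≤ ((4 : ℝ) ^ y) ^ 50 :=
        pow_le_pow_left₀ (by positivity) h5 50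
    _ ≤ (Real.exp 2 ^ y) ^ 50 := by gcongr
    _ = Real.exp (100 * (y : ℝ)) := by
        rw [← Real.exp_nat_mul, ← Real.exp_nat_mul]
        congr 1
        push_cast
        ring
    _ ≤ Real.exp (Real.log H) := Real.exp_le_exp.2 hy
    _ = H := Real.exp_log hH

end FINB

theorem p_FINB (hM : Stmt_MASTER) (hD : Stmt_DIAG) (hC : Stmt_CHEB) : Stmt_FINB := by
  obtain ⟨c0, hc0, hcheb⟩ := hC
  refine ⟨c0 / 3200, by positivity, ?_⟩
  intro b hb0 hb1
  set X : ℝ := 800 * (1 + 6 * C0) / c0 with hX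
  have hC0 := FINB.c0_nonneg
  have hX0 : 0 ≤ X := by positivity
  refine ⟨max 100000 (max (Real.exp 400) (Real.exp ((X + 1) ^ (1 / (1 - b))))), by positivity, ?_⟩
  intro σ T H φ hσ hσb hT hH hz
  have hH1 : (100000 : ℝ) ≤ H := (le_max_left _ _).trans hH
  have hH2 : Real.exp 400 ≤ H := ((le_max_left _ _).trans (le_max_right _ _)).trans hH
  have hH3 : Real.exp ((X + 1) ^ (1 / (1 - b))) ≤ H :=
    ((le_max_right _ _).trans (le_max_right _ _)).trans hH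
  have hHp : 0 < H := by linarith
  set L : ℝ := Real.log H with hL
  have hL1 : 400 ≤ L := by
    rw [hL, Real.le_log_iff_exp_le hHp]; exact hH2
  have hL2 : (X + 1) ^ (1 / (1 - b)) ≤ L := by
    rw [hL, Real.le_log_iff_exp_le hHp]; exact hH3
  have hσ1 : σ < 1 := by linarith
  by_contra hcon
  push Not at hcon
  set y : ℕ := ⌊L / 100⌋₊ with hy
  have hy1 : (y : ℝ) ≤ L / 100 := Nat.floor_le (by positivity)
  have hy2 : L / 100 < y + 1 := Nat.lt_floor_add_one _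
  have hy3 : L / 200 ≤ y := by linarith
  have hy4 : 2 ≤ y := by
    have : (2 : ℝ) ≤ y := by linarith
    exact_mod_cast this
  set N : ℕ := primorial y with hN
  have hNp : 0 < N := primorial_pos y
  have hN1 : (1 : ℝ) ≤ N := by exact_mod_cast hNp
  have hN50 : (N : ℝ) ^ 50 ≤ H := FINB.prim y H hHp (by linarith)
  set S : Finset ℕ := N.divisors with hS
  have hDN : (S.card : ℝ) ≤ N := by exact_mod_cast Nat.card_divisors_le_self N
  have hD1 : (1 : ℝ) ≤ S.card := by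
    have : 0 < S.card := Finset.card_pos.2 ⟨1, Nat.one_mem_divisors.2 hNp.ne'⟩
    exact_mod_cast this
  set q : ℂ := -cexp ((φ : ℂ) * I) with hq
  have hq1 : ‖q‖ = 1 := by
    rw [hq, norm_neg, Complex.norm_exp_ofReal_mul_I]
  set r : ℕ → ℂ := fun a => q ^ a.primeFactors.card with hr
  have hOk : Ok S N r := by
    refine ⟨fun a ha => ?_, fun a => ?_⟩
    · have h1 := Nat.dvd_of_mem_divisors ha
      exact ⟨Nat.pos_of_dvd_of_pos h1 hNp, Nat.le_of_dvd hNp h1⟩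
    · rw [hr]
      simp only [norm_pow, hq1, one_pow, le_refl]
  set V : ℝ := c0 / 3200 * L ^ (1 - σ) with hV
  have hLp : 0 < L := by linarith
  have hVn : 0 ≤ V := by positivity
  have hmain := hM S N r σ T H V (Real.exp (H / 20)) φ hOk hNp hσ hσ1 hT (by linarith) hVn
    (Real.exp_pos _).le hz (fun t ht => (hcon t ht).le)
  have hdg := hD y q σ hq1
  have hdg' : Dg S r σ = (starRingEnd ℂ) q * ((((S.card : ℝ) / 2) * Th y σ : ℝ) : ℂ) := hdg
  have hcq : cexp ((φ : ℂ) * I) * (starRingEnd ℂ) q = -1 := by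
    rw [hq, map_neg, ← Complex.exp_conj, map_mul, Complex.conj_I, Complex.conj_ofReal, mul_neg,
      ← Complex.exp_add]
    simp
  have hlhs : -(cexp ((φ : ℂ) * I) * Dg S r σ).re = (S.card : ℝ) / 2 * Th y σ := by
    rw [hdg', ← mul_assoc, hcq, neg_one_mul, Complex.neg_re, Complex.ofReal_re, neg_neg]
  rw [hlhs] at hmain
  have hT1 := hcheb y σ hy4 hσ.le hσ1.le
  have hE1 := FINB.e1 N S.card H hN1 hH1 hN50 (by linarith) hDN
  have hE2 := FINB.e2 N S.card H hN1 hH1 hN50 (by linarith) hDN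
  have hy5 : L ^ (1 - σ) / 200 ≤ (y : ℝ) ^ (1 - σ) := by
    have h1 : (L / 200) ^ (1 - σ) ≤ (y : ℝ) ^ (1 - σ) :=
      Real.rpow_le_rpow (by positivity) hy3 (by linarith)
    refine le_trans ?_ h1
    rw [Real.div_rpow hLp.le (by norm_num)]
    apply div_le_div_of_nonneg_left (by positivity) (by positivity)
    calc (200 : ℝ) ^ (1 - σ) ≤ (200 : ℝ) ^ (1 : ℝ) :=
          Real.rpow_le_rpow_of_exponent_le (by norm_num) (by linarith)
      _ = 200 := Real.rpow_one _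
  have hbig : X + 1 ≤ L ^ (1 - σ) := by
    have h1 : ((X + 1) ^ (1 / (1 - b))) ^ (1 - b) ≤ L ^ (1 - b) :=
      Real.rpow_le_rpow (by positivity) hL2 (by linarith)
    have h2 : ((X + 1) ^ (1 / (1 - b))) ^ (1 - b) = X + 1 := by
      rw [← Real.rpow_mul (by linarith), one_div, inv_mul_cancel₀ (by linarith), Real.rpow_one]
    have h3 : L ^ (1 - b) ≤ L ^ (1 - σ) :=
      Real.rpow_le_rpow_of_exponent_le (by linarith) (by linarith)
    linarith
  have hA : (S.card : ℝ) / 2 * (c0 * (y : ℝ) ^ (1 - σ)) ≤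
      V * (S.card + 3) + 1 + 6 * C0 := by
    have h1 : (S.card : ℝ) / 2 * (c0 * (y : ℝ) ^ (1 - σ)) ≤ (S.card : ℝ) / 2 * Th y σ := by
      gcongr
    have h2 : V * ((S.card : ℝ) + 3 * (S.card : ℝ) ^ 2 * (N : ℝ) ^ 2 *
        Real.exp (-(H / (16 * (N : ℝ) ^ 2)))) ≤ V * (S.card + 3) := by
      apply mul_le_mul_of_nonneg_left _ hVn
      nlinarith [hE1]
    have h3 : 6 * C0 * (S.card : ℝ) ^ 2 * (N : ℝ) ^ 2 * Real.exp (-(H / (16 * (N : ℝ) ^ 2))) ≤
        6 * C0 := by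
      have h4 : 6 * C0 * ((S.card : ℝ) ^ 2 * (N : ℝ) ^ 2 *
          Real.exp (-(H / (16 * (N : ℝ) ^ 2)))) ≤ 6 * C0 * 1 :=
        mul_le_mul_of_nonneg_left hE1 (by positivity)
      calc _ = 6 * C0 * ((S.card : ℝ) ^ 2 * (N : ℝ) ^ 2 *
          Real.exp (-(H / (16 * (N : ℝ) ^ 2)))) := by ring
        _ ≤ _ := by linarith
    linarith
  have hB : (S.card : ℝ) / 2 * (c0 * (y : ℝ) ^ (1 - σ)) ≤
      (S.card : ℝ) * (4 * V + 1 + 6 * C0) := by
    nlinarith [mul_nonneg hVn (by linarith : (0 : ℝ) ≤ (S.card : ℝ) - 1),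
      mul_nonneg hC0 (by linarith : (0 : ℝ) ≤ (S.card : ℝ) - 1)]
  have hCc : c0 / 2 * (y : ℝ) ^ (1 - σ) ≤ 4 * V + 1 + 6 * C0 := by
    have h1 : (S.card : ℝ) * (c0 / 2 * (y : ℝ) ^ (1 - σ)) ≤
        (S.card : ℝ) * (4 * V + 1 + 6 * C0) := by
      calc _ = (S.card : ℝ) / 2 * (c0 * (y : ℝ) ^ (1 - σ)) := by ring
        _ ≤ _ := hB
    exact le_of_mul_le_mul_left h1 (by linarith)
  have hDd : c0 / 400 * L ^ (1 - σ) ≤ 4 * V + 1 + 6 * C0 := by
    have h1 : c0 / 2 * (L ^ (1 - σ) / 200) ≤ c0 / 2 * (y : ℝ) ^ (1 - σ) := by gcongr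
    calc _ = c0 / 2 * (L ^ (1 - σ) / 200) := by ring
      _ ≤ _ := h1.trans hCc
  have hE : c0 / 800 * L ^ (1 - σ) ≤ 1 + 6 * C0 := by
    have h1 : 4 * V = c0 / 800 * L ^ (1 - σ) := by rw [hV]; ring
    have h2 : c0 / 400 * L ^ (1 - σ) = c0 / 800 * L ^ (1 - σ) + c0 / 800 * L ^ (1 - σ) := by ring
    linarith
  have hF : c0 / 800 * (X + 1) ≤ c0 / 800 * L ^ (1 - σ) := by gcongr
  have hG : c0 / 800 * X = 1 + 6 * C0 := by
    rw [hX]; field_simp
  have hpos : 0 < c0 / 800 := by positivity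
  nlinarith

end Pool.Agent.Work.MP_e9b29d_win
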