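import Pool.Agent.Work.MP_e9b29d_win.Interface

/-!
# Block HOR (helper2): pointwise bounds on the horizontal sides
-/

set_option autoImplicit false

open Complex MeasureTheory Set

namespace Pool.Agent.Work.MP_e9b29d_win

theorem p_HOR : Stmt_HOR := by
  intro S N r H x y v hOk hH hx0 hx2 hv
  constructor
  · have hterm : ∀ a ∈ S, ∀ b ∈ S, ‖r a * (starRingEnd ℂ) (r b) *
        cexp (((Real.log ((b : ℝ) / (a : ℝ)) : ℝ) : ℂ) * ((x : ℂ) + (y : ℂ) * I))‖ ≤ (N : ℝ) ^ 2 := by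
      intro a ha b hb
      obtain ⟨ha1, haN⟩ := hOk.1 a ha
      obtain ⟨hb1, hbN⟩ := hOk.1 b hb
      have ha0 : (1 : ℝ) ≤ a := by exact_mod_cast ha1
      have hb0 : (1 : ℝ) ≤ b := by exact_mod_cast hb1
      have hbN' : (b : ℝ) ≤ N := by exact_mod_cast hbN
      have hN1 : (1 : ℝ) ≤ N := hb0.trans hbN'
      have hN0 : (0 : ℝ) < N := by linarith
      have h1 : ‖r a‖ * ‖r b‖ ≤ 1 := by
        have := mul_le_mul (hOk.2 a) (hOk.2 b) (norm_nonneg _) zero_le_one
        linarith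
      have hre : ((((Real.log ((b : ℝ) / (a : ℝ)) : ℝ) : ℂ) * ((x : ℂ) + (y : ℂ) * I))).re =
          Real.log ((b : ℝ) / (a : ℝ)) * x := by
        simp
      have h2 : Real.log ((b : ℝ) / (a : ℝ)) ≤ Real.log N := by
        apply Real.log_le_log (by positivity)
        rw [div_le_iff₀ (by linarith)]
        nlinarith
      have hlN : 0 ≤ Real.log N := Real.log_nonneg hN1
      have h3 : Real.log ((b : ℝ) / (a : ℝ)) * x ≤ 2 * Real.log N := by
        calc Real.log ((b : ℝ) / (a : ℝ)) * x ≤ Real.log N * x := mul_le_mul_of_nonneg_right h2 hx0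
          _ ≤ Real.log N * 2 := mul_le_mul_of_nonneg_left hx2 hlN
          _ = 2 * Real.log N := by ring
      have h4 : Real.exp (2 * Real.log N) = (N : ℝ) ^ 2 := by
        rw [mul_comm, Real.exp_mul, Real.exp_log hN0]
        norm_num
      rw [norm_mul, norm_mul, RCLike.norm_conj, Complex.norm_exp, hre]
      calc ‖r a‖ * ‖r b‖ * Real.exp (Real.log ((b : ℝ) / (a : ℝ)) * x)
          ≤ 1 * Real.exp (2 * Real.log N) := by
            apply mul_le_mul h1 (Real.exp_le_exp.2 h3) (Real.exp_pos _).le zero_le_one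
        _ = (N : ℝ) ^ 2 := by rw [one_mul, h4]
    unfold A
    refine (norm_sum_le _ _).trans ?_
    have h5 : ∀ a ∈ S, ‖∑ b ∈ S, r a * (starRingEnd ℂ) (r b) *
        cexp (((Real.log ((b : ℝ) / (a : ℝ)) : ℝ) : ℂ) * ((x : ℂ) + (y : ℂ) * I))‖ ≤ (S.card : ℝ) * (N : ℝ) ^ 2 := by
      intro a ha
      refine (norm_sum_le _ _).trans ((Finset.sum_le_sum (hterm a ha)).trans (le_of_eq ?_))
      rw [Finset.sum_const, nsmul_eq_mul]
    refine (Finset.sum_le_sum h5).trans (le_of_eq ?_)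
    rw [Finset.sum_const, nsmul_eq_mul]
    ring
  · have hH0 : (0 : ℝ) < H := by linarith
    have hre : ((((x : ℂ) + (v : ℂ) * I) ^ 2 / (2 * (H : ℂ)))).re = (x ^ 2 - v ^ 2) / (2 * H) := by
      have e : (((x : ℂ) + (v : ℂ) * I) ^ 2 / (2 * (H : ℂ))) =
          (((x ^ 2 - v ^ 2) / (2 * H) : ℝ) : ℂ) + ((2 * x * v / (2 * H) : ℝ) : ℂ) * I := by
        have hHc : (H : ℂ) ≠ 0 := by exact_mod_cast hH0.ne'
        push_cast
        field_simp
        ring_nf
        rw [I_sq]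
        ring
      rw [e, add_re, ofReal_re, re_ofReal_mul, I_re, mul_zero, add_zero]
    rw [Complex.norm_exp, hre]
    have h1 : (x ^ 2 - v ^ 2) / (2 * H) ≤ 1 / 2 + -(H / 8) := by
      rw [hv, div_le_iff₀ (by positivity)]
      nlinarith
    have h2 : Real.exp (1 / 2) ≤ 2 := by
      have h3 : Real.exp (1 / 2) * Real.exp (1 / 2) = Real.exp 1 := by
        rw [← Real.exp_add]
        norm_num
      have h4 := Real.exp_one_lt_d9
      have h5 := Real.exp_pos (1 / 2)
      nlinarith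
    calc Real.exp ((x ^ 2 - v ^ 2) / (2 * H)) ≤ Real.exp (1 / 2 + -(H / 8)) := Real.exp_le_exp.2 h1
      _ = Real.exp (1 / 2) * Real.exp (-(H / 8)) := Real.exp_add _ _
      _ ≤ 2 * Real.exp (-(H / 8)) := mul_le_mul_of_nonneg_right h2 (Real.exp_pos _).le

end Pool.Agent.Work.MP_e9b29d_win
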