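import Mathlib

/-!
# Large values of `ζ'/ζ` in EVERY window `[T, T+H]` (MP_e9b29d_nt)

Theorem (FINB): for `σ ≤ b < 1`, `T ≥ 1`, `H ≥ H₀(b)`: if `ζ` has no zero and `|ζ'/ζ| ≤ exp(H/20)` on
`[σ,2] × [T,T+H]`, then for every `φ` some `t ∈ [T,T+H]` has `Re(e^{iφ} ζ'/ζ(σ+it)) ≥ c (log H)^{1-σ}`.
Hence (FINA) every window contains a point with `Re s ≥ σ` which is a zero or has
`|ζ'/ζ(s)| ≥ c (log H)^{1-σ}`.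
Method: contour shift from `Re = σ` to `Re = 2` with the weight
`|∑_{a ∣ P} r_a a^{-it}|² exp(-(t-u)²/(2H))`, `P` a primorial, `u = T + H/2`.
-/

set_option autoImplicit false

open Complex MeasureTheory Set

namespace Pool.Agent.Work.MP_e9b29d_win

/-- logarithmic derivative of zeta -/
noncomputable def F (s : ℂ) : ℂ := deriv riemannZeta s / riemannZeta s

/-- the oscillating Gaussian (centre `u`, frequency `l`, height `κ`) -/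
noncomputable def kg (H κ l u t : ℝ) : ℂ :=
  cexp (-(l : ℂ) * ((κ : ℂ) + (t : ℂ) * I) + ((κ : ℂ) + (t : ℂ) * I - (u : ℂ) * I) ^ 2 / (2 * (H : ℂ)))

/-- the weight `A(z) = ∑ r_a conj(r_b) (b/a)^z` -/
noncomputable def A (S : Finset ℕ) (r : ℕ → ℂ) (z : ℂ) : ℂ :=
  ∑ a ∈ S, ∑ b ∈ S, r a * (starRingEnd ℂ) (r b) * cexp (((Real.log ((b : ℝ) / (a : ℝ)) : ℝ) : ℂ) * z)

/-- the diagonal terms `n a = b` -/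
noncomputable def Dg (S : Finset ℕ) (r : ℕ → ℂ) (σ : ℝ) : ℂ :=
  ∑ a ∈ S, ∑ b ∈ S, if a ∣ b then r a * (starRingEnd ℂ) (r b) *
    ((ArithmeticFunction.vonMangoldt (b / a) * ((b / a : ℕ) : ℝ) ^ (-σ) : ℝ) : ℂ) else 0

/-- `∑ Λ(n) / n²` -/
noncomputable def C0 : ℝ := ∑' n : ℕ, ArithmeticFunction.vonMangoldt n / (n : ℝ) ^ 2

/-- admissible data: `S ⊆ [1,N]`, `|r| ≤ 1` -/
def Ok (S : Finset ℕ) (N : ℕ) (r : ℕ → ℂ) : Prop := (∀ a ∈ S, 1 ≤ a ∧ a ≤ N) ∧ ∀ a, ‖r a‖ ≤ 1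

/-- `GI`: the Gaussian integral -/
def Stmt_GI : Prop := ∀ H κ l u : ℝ, 0 < H →
  Integrable (fun t : ℝ => kg H κ l u t) ∧
  ∫ t : ℝ, kg H κ l u t = cexp (-((l * u : ℝ) : ℂ) * I) *
    ((√(2 * Real.pi * H) * Real.exp (-(l ^ 2 * H / 2)) : ℝ) : ℂ)

/-- `TAIL`: the integral over the window -/
def Stmt_TAIL : Prop := ∀ H κ l T : ℝ, 4 ≤ H → 0 ≤ κ → κ ≤ 2 →
  ‖(∫ t in T..(T + H), kg H κ l (T + H / 2) t) - cexp (-((l * (T + H / 2) : ℝ) : ℂ) * I) *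
    ((√(2 * Real.pi * H) * Real.exp (-(l ^ 2 * H / 2)) : ℝ) : ℂ)‖ ≤
    Real.exp (-(l * κ)) * (2 * √(4 * Real.pi * H) * Real.exp (-(H / 16)))

/-- `SEP`: different integers are separated -/
def Stmt_SEP : Prop := ∀ (x b N : ℕ) (H : ℝ), 1 ≤ x → 1 ≤ b → b ≤ N → x ≠ b → 4 ≤ H →
  Real.exp (-(Real.log ((x : ℝ) / (b : ℝ)) ^ 2 * H / 2)) ≤
    Real.exp (-(H / (16 * (N : ℝ) ^ 2))) * 3 * ((b : ℝ) / (x : ℝ)) ^ 2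

/-- `PT`: one term on the line `Re = 2` -/
def Stmt_PT : Prop := ∀ (n a b N : ℕ) (σ T H : ℝ), 1 ≤ n → 1 ≤ a → 1 ≤ b → a ≤ N → b ≤ N →
  0 < σ → σ < 1 → 4 ≤ H →
  (n : ℝ) ^ (-σ) * ‖(∫ t in T..(T + H), kg H (2 - σ) (Real.log ((n : ℝ) * a / b)) (T + H / 2) t) -
    (if n * a = b then ((√(2 * Real.pi * H) : ℝ) : ℂ) else 0)‖ ≤
    (N : ℝ) ^ 2 / (n : ℝ) ^ 2 * (2 * √(4 * Real.pi * H) * Real.exp (-(H / 16)) +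
      3 * √(2 * Real.pi * H) * Real.exp (-(H / (16 * (N : ℝ) ^ 2))))

/-- the integrand on the line `Re = 2` -/
noncomputable def Rt (S : Finset ℕ) (r : ℕ → ℂ) (σ T H : ℝ) : ℂ :=
  ∫ t in T..(T + H), F ((2 : ℂ) + (t : ℂ) * I) * A S r ((2 : ℂ) + (t : ℂ) * I - (σ : ℂ)) *
    cexp (((2 : ℂ) + (t : ℂ) * I - ((σ : ℂ) + ((T + H / 2 : ℝ) : ℂ) * I)) ^ 2 / (2 * (H : ℂ)))

/-- `TERM`: termwise integration on the line `Re = 2` -/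
def Stmt_TERM : Prop := ∀ (S : Finset ℕ) (N : ℕ) (r : ℕ → ℂ) (σ T H : ℝ), Ok S N r → 0 < σ → σ < 1 →
  4 ≤ H →
  HasSum (fun n : ℕ => ∑ a ∈ S, ∑ b ∈ S,
    ((ArithmeticFunction.vonMangoldt n * (n : ℝ) ^ (-σ) : ℝ) : ℂ) * (r a * (starRingEnd ℂ) (r b)) *
      ∫ t in T..(T + H), kg H (2 - σ) (Real.log ((n : ℝ) * a / b)) (T + H / 2) t) (-Rt S r σ T H)

/-- `RIGHT`: the line `Re = 2` -/
def Stmt_RIGHT : Prop := ∀ (S : Finset ℕ) (N : ℕ) (r : ℕ → ℂ) (σ T H : ℝ), Ok S N r → 0 < σ → σ < 1 →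
  4 ≤ H →
  ‖Rt S r σ T H + ((√(2 * Real.pi * H) : ℝ) : ℂ) * Dg S r σ‖ ≤
    C0 * (S.card : ℝ) ^ 2 * (N : ℝ) ^ 2 * (2 * √(4 * Real.pi * H) * Real.exp (-(H / 16)) +
      3 * √(2 * Real.pi * H) * Real.exp (-(H / (16 * (N : ℝ) ^ 2))))

/-- `MEAN`: the mean value of the weight -/
def Stmt_MEAN : Prop := ∀ (S : Finset ℕ) (N : ℕ) (r : ℕ → ℂ) (T H : ℝ), Ok S N r → 4 ≤ H →
  ∫ t in T..(T + H), ‖∑ a ∈ S, r a * cexp (-((Real.log (a : ℝ) : ℝ) : ℂ) * ((t : ℂ) * I))‖ ^ 2 *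
    Real.exp (-((t - (T + H / 2)) ^ 2 / (2 * H))) ≤
  √(2 * Real.pi * H) * ((S.card : ℝ) + 3 * (S.card : ℝ) ^ 2 * (N : ℝ) ^ 2 *
    Real.exp (-(H / (16 * (N : ℝ) ^ 2))))

/-- `LEFT`: the line `Re = σ` -/
def Stmt_LEFT : Prop := ∀ (S : Finset ℕ) (N : ℕ) (r : ℕ → ℂ) (T H V φ : ℝ) (f : ℝ → ℂ),
  Ok S N r → 4 ≤ H → 0 ≤ V → ContinuousOn f (Icc T (T + H)) →
  (∀ t ∈ Icc T (T + H), (cexp ((φ : ℂ) * I) * f t).re ≤ V) →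
  (cexp ((φ : ℂ) * I) * ∫ t in T..(T + H), f t * A S r ((t : ℂ) * I) *
    cexp (((t : ℂ) * I - ((T + H / 2 : ℝ) : ℂ) * I) ^ 2 / (2 * (H : ℂ)))).re ≤
  V * (√(2 * Real.pi * H) * ((S.card : ℝ) + 3 * (S.card : ℝ) ^ 2 * (N : ℝ) ^ 2 *
    Real.exp (-(H / (16 * (N : ℝ) ^ 2)))))

/-- `HOR`: pointwise bounds on the horizontal sides -/
def Stmt_HOR : Prop := ∀ (S : Finset ℕ) (N : ℕ) (r : ℕ → ℂ) (H x y v : ℝ), Ok S N r → 4 ≤ H →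
  0 ≤ x → x ≤ 2 → v ^ 2 = (H / 2) ^ 2 →
  ‖A S r ((x : ℂ) + (y : ℂ) * I)‖ ≤ (S.card : ℝ) ^ 2 * (N : ℝ) ^ 2 ∧
  ‖cexp (((x : ℂ) + (v : ℂ) * I) ^ 2 / (2 * (H : ℂ)))‖ ≤ 2 * Real.exp (-(H / 8))

/-- `CONT`: the contour shift -/
def Stmt_CONT : Prop := ∀ (G : ℂ → ℂ) (σ T H B : ℝ), σ < 2 → 0 < H → 0 ≤ B →
  (∀ s : ℂ, σ ≤ s.re → s.re ≤ 2 → T ≤ s.im → s.im ≤ T + H → DifferentiableAt ℂ G s) →
  (∀ x : ℝ, σ ≤ x → x ≤ 2 → ‖G ((x : ℂ) + (T : ℂ) * I)‖ ≤ B ∧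
    ‖G ((x : ℂ) + ((T + H : ℝ) : ℂ) * I)‖ ≤ B) →
  ‖(∫ t in T..(T + H), G ((2 : ℂ) + (t : ℂ) * I)) - ∫ t in T..(T + H), G ((σ : ℂ) + (t : ℂ) * I)‖ ≤
    2 * (2 - σ) * B

/-- `MASTER`: the inequality for all resonators -/
def Stmt_MASTER : Prop := ∀ (S : Finset ℕ) (N : ℕ) (r : ℕ → ℂ) (σ T H V W φ : ℝ), Ok S N r → 1 ≤ N →
  0 < σ → σ < 1 → 1 ≤ T → 4 ≤ H → 0 ≤ V → 0 ≤ W →
  (∀ s : ℂ, σ ≤ s.re → s.re ≤ 2 → T ≤ s.im → s.im ≤ T + H → riemannZeta s ≠ 0 ∧ ‖F s‖ ≤ W) →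
  (∀ t ∈ Icc T (T + H), (cexp ((φ : ℂ) * I) * F ((σ : ℂ) + (t : ℂ) * I)).re ≤ V) →
  -(cexp ((φ : ℂ) * I) * Dg S r σ).re ≤
    V * ((S.card : ℝ) + 3 * (S.card : ℝ) ^ 2 * (N : ℝ) ^ 2 * Real.exp (-(H / (16 * (N : ℝ) ^ 2)))) +
    8 * W * (S.card : ℝ) ^ 2 * (N : ℝ) ^ 2 * Real.exp (-(H / 8)) +
    6 * C0 * (S.card : ℝ) ^ 2 * (N : ℝ) ^ 2 * Real.exp (-(H / (16 * (N : ℝ) ^ 2)))

/-- the sum over the primes `p ≤ y` of `log p / p^σ` -/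
noncomputable def Th (y : ℕ) (σ : ℝ) : ℝ :=
  ∑ p ∈ (Finset.range (y + 1)).filter Nat.Prime, Real.log p * (p : ℝ) ^ (-σ)

/-- `DIAG`: the diagonal for the divisors of a primorial -/
def Stmt_DIAG : Prop := ∀ (y : ℕ) (q : ℂ) (σ : ℝ), ‖q‖ = 1 →
  Dg (primorial y).divisors (fun a => q ^ a.primeFactors.card) σ =
    (starRingEnd ℂ) q * (((((primorial y).divisors.card : ℝ) / 2) * Th y σ : ℝ) : ℂ)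

/-- `CHEB`: Chebyshev's lower bound -/
def Stmt_CHEB : Prop := ∃ c : ℝ, 0 < c ∧ ∀ (y : ℕ) (σ : ℝ), 2 ≤ y → 0 ≤ σ → σ ≤ 1 →
  c * (y : ℝ) ^ (1 - σ) ≤ Th y σ

/-- `FINB`: the line version, all directions -/
def Stmt_FINB : Prop := ∃ c : ℝ, 0 < c ∧ ∀ b : ℝ, 0 < b → b < 1 → ∃ H₀ : ℝ, 0 < H₀ ∧
  ∀ (σ T H φ : ℝ), 0 < σ → σ ≤ b → 1 ≤ T → H₀ ≤ H →
  (∀ s : ℂ, σ ≤ s.re → s.re ≤ 2 → T ≤ s.im → s.im ≤ T + H →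
    riemannZeta s ≠ 0 ∧ ‖F s‖ ≤ Real.exp (H / 20)) →
  ∃ t ∈ Icc T (T + H), c * Real.log H ^ (1 - σ) ≤ (cexp ((φ : ℂ) * I) * F ((σ : ℂ) + (t : ℂ) * I)).re

/-- `FINA`: every window -/
def Stmt_FINA : Prop := ∃ c : ℝ, 0 < c ∧ ∀ b : ℝ, 0 < b → b < 1 → ∃ H₀ : ℝ, 0 < H₀ ∧
  ∀ (σ T H : ℝ), 0 < σ → σ ≤ b → 1 ≤ T → H₀ ≤ H →
  ∃ s : ℂ, σ ≤ s.re ∧ s.re ≤ 2 ∧ T ≤ s.im ∧ s.im ≤ T + H ∧
    (riemannZeta s = 0 ∨ c * Real.log H ^ (1 - σ) ≤ ‖F s‖)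

end Pool.Agent.Work.MP_e9b29d_win
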