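import Mathlib
import Pool.Agent.Work.MP_e9b29d_win.Interface

/-! MP_e9b29d_nt, block LEFT (helper12). -/

set_option autoImplicit false

open Complex MeasureTheory Set

namespace Pool.Agent.Work.MP_e9b29d_win

namespace LEFT

theorem A_eq (S : Finset ℕ) (r : ℕ → ℂ) (hS : ∀ a ∈ S, 1 ≤ a) (t : ℝ) :
    A S r ((t : ℂ) * I) =
      ((‖∑ a ∈ S, r a * cexp (-((Real.log (a : ℝ) : ℝ) : ℂ) * ((t : ℂ) * I))‖ ^ 2 : ℝ) : ℂ) := by
  rw [← Complex.normSq_eq_norm_sq, ← Complex.mul_conj, map_sum, Finset.sum_mul_sum, A]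
  refine Finset.sum_congr rfl fun a ha => Finset.sum_congr rfl fun b hb => ?_
  have ha0 : (a : ℝ) ≠ 0 := by
    have := hS a ha
    positivity
  have hb0 : (b : ℝ) ≠ 0 := by
    have := hS b hb
    positivity
  rw [map_mul, ← Complex.exp_conj, map_mul, map_neg, map_mul, Complex.conj_ofReal,
    Complex.conj_ofReal, Complex.conj_I, Real.log_div hb0 ha0]
  have h1 : ((Real.log (b : ℝ) - Real.log (a : ℝ) : ℝ) : ℂ) * ((t : ℂ) * I) =
      -((Real.log (a : ℝ) : ℝ) : ℂ) * ((t : ℂ) * I) +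
        -((Real.log (b : ℝ) : ℝ) : ℂ) * ((t : ℂ) * -I) := by
    push_cast; ring
  rw [h1, Complex.exp_add]
  ring

theorem G_eq (H u t : ℝ) :
    cexp (((t : ℂ) * I - ((u : ℝ) : ℂ) * I) ^ 2 / (2 * (H : ℂ))) =
      ((Real.exp (-((t - u) ^ 2 / (2 * H))) : ℝ) : ℂ) := by
  rw [Complex.ofReal_exp]
  congr 1
  have h1 : ((t : ℂ) * I - ((u : ℝ) : ℂ) * I) ^ 2 = -((t : ℂ) - (u : ℂ)) ^ 2 := by
    have h2 : I ^ 2 = (-1 : ℂ) := Complex.I_sq
    calc ((t : ℂ) * I - ((u : ℝ) : ℂ) * I) ^ 2 = ((t : ℂ) - (u : ℂ)) ^ 2 * I ^ 2 := by ring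
      _ = -((t : ℂ) - (u : ℂ)) ^ 2 := by rw [h2]; ring
  rw [h1]
  push_cast
  ring

end LEFT

/-- Block LEFT. -/
theorem p_LEFT (hM : Stmt_MEAN) : Stmt_LEFT := by
  intro S N r T H V φ f hOk hH hV hf hle
  obtain ⟨hS, hr⟩ := hOk
  have hTH : T ≤ T + H := by linarith
  set R : ℝ → ℂ := fun t => ∑ a ∈ S, r a * cexp (-((Real.log (a : ℝ) : ℝ) : ℂ) * ((t : ℂ) * I))
    with hR
  set w : ℝ → ℝ := fun t => ‖R t‖ ^ 2 * Real.exp (-((t - (T + H / 2)) ^ 2 / (2 * H))) with hw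
  have hRc : Continuous R := by
    rw [hR]
    fun_prop
  have hwc : Continuous w := by
    rw [hw]
    fun_prop
  have hw0 : ∀ t, 0 ≤ w t := fun t => mul_nonneg (sq_nonneg _) (Real.exp_nonneg _)
  have h1 : ∀ t : ℝ, f t * A S r ((t : ℂ) * I) *
      cexp (((t : ℂ) * I - ((T + H / 2 : ℝ) : ℂ) * I) ^ 2 / (2 * (H : ℂ))) =
        f t * ((w t : ℝ) : ℂ) := by
    intro t
    rw [LEFT.A_eq S r (fun a ha => (hS a ha).1) t, LEFT.G_eq H (T + H / 2) t, mul_assoc,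
      ← Complex.ofReal_mul]
  have h2 : (∫ t in T..(T + H), f t * A S r ((t : ℂ) * I) *
      cexp (((t : ℂ) * I - ((T + H / 2 : ℝ) : ℂ) * I) ^ 2 / (2 * (H : ℂ)))) =
      ∫ t in T..(T + H), f t * ((w t : ℝ) : ℂ) := by
    simp only [h1]
  rw [h2, ← intervalIntegral.integral_const_mul]
  have hgc : ContinuousOn (fun t : ℝ => cexp ((φ : ℂ) * I) * (f t * ((w t : ℝ) : ℂ)))
      (Icc T (T + H)) :=
    continuousOn_const.mul (hf.mul (Complex.continuous_ofReal.comp hwc).continuousOn)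
  have hgi : IntervalIntegrable (fun t : ℝ => cexp ((φ : ℂ) * I) * (f t * ((w t : ℝ) : ℂ)))
      volume T (T + H) := hgc.intervalIntegrable_of_Icc hTH
  have h3 : (∫ t in T..(T + H), cexp ((φ : ℂ) * I) * (f t * ((w t : ℝ) : ℂ))).re =
      ∫ t in T..(T + H), (cexp ((φ : ℂ) * I) * (f t * ((w t : ℝ) : ℂ))).re :=
    (Complex.reCLM.intervalIntegral_comp_comm hgi).symm
  rw [h3]
  have h4 : ∀ t : ℝ, (cexp ((φ : ℂ) * I) * (f t * ((w t : ℝ) : ℂ))).re =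
      (cexp ((φ : ℂ) * I) * f t).re * w t := by
    intro t
    rw [← mul_assoc, Complex.re_mul_ofReal]
  have h5 : ∫ t in T..(T + H), (cexp ((φ : ℂ) * I) * (f t * ((w t : ℝ) : ℂ))).re ≤
      ∫ t in T..(T + H), V * w t := by
    refine intervalIntegral.integral_mono_on hTH ?_ ?_ ?_
    · exact (Complex.continuous_re.comp_continuousOn hgc).intervalIntegrable_of_Icc hTH
    · exact (continuous_const.mul hwc).intervalIntegrable _ _
    · intro t ht
      rw [h4]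
      exact mul_le_mul_of_nonneg_right (hle t ht) (hw0 t)
  refine h5.trans ?_
  rw [intervalIntegral.integral_const_mul]
  exact mul_le_mul_of_nonneg_left (hM S N r T H ⟨hS, hr⟩ hH) hV

end Pool.Agent.Work.MP_e9b29d_win
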