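import Pool.Agent.Work.MP_e9b29d_win.Interface

set_option autoImplicit false

open Complex MeasureTheory Set

namespace Pool.Agent.Work.MP_e9b29d_win

namespace MASTERaux

theorem diffF {s : ℂ} (hs : s ≠ 1) (h0 : riemannZeta s ≠ 0) : DifferentiableAt ℂ F s := by
  have h1 : DifferentiableOn ℂ riemannZeta ({1}ᶜ : Set ℂ) := fun z hz =>
    (differentiableAt_riemannZeta hz).differentiableWithinAt
  have h2 : AnalyticAt ℂ riemannZeta s :=
    h1.analyticAt (isOpen_compl_singleton.mem_nhds hs)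
  unfold F
  exact h2.deriv.differentiableAt.div h2.differentiableAt h0

theorem diffA (S : Finset ℕ) (r : ℕ → ℂ) : Differentiable ℂ (A S r) := by
  unfold A
  fun_prop

theorem norm_e (φ : ℝ) : ‖cexp ((φ : ℂ) * I)‖ = 1 := Complex.norm_exp_ofReal_mul_I φ

theorem re_le (φ : ℝ) (z : ℂ) : (cexp ((φ : ℂ) * I) * z).re ≤ ‖z‖ := by
  calc (cexp ((φ : ℂ) * I) * z).re ≤ ‖cexp ((φ : ℂ) * I) * z‖ := Complex.re_le_norm _
    _ = ‖z‖ := by rw [norm_mul, norm_e, one_mul]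

end MASTERaux

open MASTERaux in
theorem p_MASTER (hR : Stmt_RIGHT) (hL : Stmt_LEFT) (hH : Stmt_HOR) (hC : Stmt_CONT) :
    Stmt_MASTER := by
  intro S N r σ T H V W φ hOk hN h0 h1 hT hH4 hV hW hz hf
  have hH0 : 0 < H := by linarith
  set u : ℝ := T + H / 2 with hu
  set G : ℂ → ℂ := fun s => F s * A S r (s - (σ : ℂ)) *
    cexp ((s - ((σ : ℂ) + (u : ℂ) * I)) ^ 2 / (2 * (H : ℂ))) with hG
  set K : ℝ := (S.card : ℝ) ^ 2 * (N : ℝ) ^ 2 with hK
  have hK0 : 0 ≤ K := by positivity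
  have hne1 : ∀ s : ℂ, T ≤ s.im → s ≠ 1 := by
    intro s hs h
    rw [h, Complex.one_im] at hs
    linarith
  have hGd : ∀ s : ℂ, σ ≤ s.re → s.re ≤ 2 → T ≤ s.im → s.im ≤ T + H → DifferentiableAt ℂ G s := by
    intro s a1 a2 a3 a4
    have d1 : DifferentiableAt ℂ F s := diffF (hne1 s a3) (hz s a1 a2 a3 a4).1
    have d2 : DifferentiableAt ℂ (fun s : ℂ => A S r (s - (σ : ℂ))) s :=
      ((diffA S r) _).comp s (by fun_prop)
    have d3 : DifferentiableAt ℂ (fun s : ℂ =>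
        cexp ((s - ((σ : ℂ) + (u : ℂ) * I)) ^ 2 / (2 * (H : ℂ)))) s := by fun_prop
    exact (d1.mul d2).mul d3
  have hGb : ∀ x y : ℝ, σ ≤ x → x ≤ 2 → T ≤ y → y ≤ T + H → (y - u) ^ 2 = (H / 2) ^ 2 →
      ‖G ((x : ℂ) + (y : ℂ) * I)‖ ≤ W * K * (2 * Real.exp (-(H / 8))) := by
    intro x y a1 a2 a3 a4 a5
    have b1 : ‖F ((x : ℂ) + (y : ℂ) * I)‖ ≤ W := by
      refine (hz _ ?_ ?_ ?_ ?_).2 <;> simp <;> assumption
    have b2 := hH S N r H (x - σ) y (y - u) hOk hH4 (by linarith) (by linarith) a5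
    have e1 : (x : ℂ) + (y : ℂ) * I - (σ : ℂ) = ((x - σ : ℝ) : ℂ) + (y : ℂ) * I := by
      push_cast; ring
    have e2 : (x : ℂ) + (y : ℂ) * I - ((σ : ℂ) + (u : ℂ) * I)
        = ((x - σ : ℝ) : ℂ) + ((y - u : ℝ) : ℂ) * I := by
      push_cast; ring
    simp only [hG]
    rw [norm_mul, norm_mul, e1, e2]
    exact mul_le_mul (mul_le_mul b1 b2.1 (norm_nonneg _) hW) b2.2 (norm_nonneg _)
      (mul_nonneg hW hK0)
  have hshift := hC G σ T H (W * K * (2 * Real.exp (-(H / 8)))) (by linarith) hH0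
    (by positivity) hGd (fun x a1 a2 => ⟨hGb x T a1 a2 le_rfl (by linarith) (by rw [hu]; ring),
      hGb x (T + H) a1 a2 (by linarith) le_rfl (by rw [hu]; ring)⟩)
  have hRt : ∫ t in T..(T + H), G ((2 : ℂ) + (t : ℂ) * I) = Rt S r σ T H := rfl
  have hLt : ∫ t in T..(T + H), G ((σ : ℂ) + (t : ℂ) * I)
      = ∫ t in T..(T + H), F ((σ : ℂ) + (t : ℂ) * I) * A S r ((t : ℂ) * I) *
        cexp (((t : ℂ) * I - ((T + H / 2 : ℝ) : ℂ) * I) ^ 2 / (2 * (H : ℂ))) := by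
    apply intervalIntegral.integral_congr
    intro t _
    have e1 : (σ : ℂ) + (t : ℂ) * I - (σ : ℂ) = (t : ℂ) * I := by ring
    have e2 : (σ : ℂ) + (t : ℂ) * I - ((σ : ℂ) + (u : ℂ) * I) = (t : ℂ) * I - (u : ℂ) * I := by
      ring
    simp only [hG]
    rw [e1, e2]
  have hfc : ContinuousOn (fun t : ℝ => F ((σ : ℂ) + (t : ℂ) * I)) (Icc T (T + H)) := by
    intro t ht
    have d1 : ContinuousAt F ((σ : ℂ) + (t : ℂ) * I) := by
      have him : ((σ : ℂ) + (t : ℂ) * I).im = t := by simp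
      have hre : ((σ : ℂ) + (t : ℂ) * I).re = σ := by simp
      refine (diffF (hne1 _ (by rw [him]; exact ht.1)) (hz _ ?_ ?_ ?_ ?_).1).continuousAt
      · rw [hre]
      · rw [hre]; linarith
      · rw [him]; exact ht.1
      · rw [him]; exact ht.2
    have d2 : ContinuousAt (fun t : ℝ => (σ : ℂ) + (t : ℂ) * I) t := by fun_prop
    exact (ContinuousAt.comp (f := fun t : ℝ => (σ : ℂ) + (t : ℂ) * I) d1 d2).continuousWithinAt
  have hleft := hL S N r T H V φ (fun t : ℝ => F ((σ : ℂ) + (t : ℂ) * I)) hOk hH4 hV hfc hf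
  have hright := hR S N r σ T H hOk h0 h1 hH4
  rw [hRt, hLt] at hshift
  set L : ℂ := ∫ t in T..(T + H), F ((σ : ℂ) + (t : ℂ) * I) * A S r ((t : ℂ) * I) *
        cexp (((t : ℂ) * I - ((T + H / 2 : ℝ) : ℂ) * I) ^ 2 / (2 * (H : ℂ))) with hLdef
  set q : ℝ := √(2 * Real.pi * H) with hq
  have hpi := Real.pi_gt_three
  have hq1 : 1 ≤ q := by
    rw [hq, Real.one_le_sqrt]
    nlinarith
  have hq0 : 0 < q := by linarith
  set X : ℝ := Real.exp (-(H / (16 * (N : ℝ) ^ 2))) with hX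
  have hX0 : 0 < X := Real.exp_pos _
  set Y : ℝ := (S.card : ℝ) + 3 * (S.card : ℝ) ^ 2 * (N : ℝ) ^ 2 * X with hY
  -- the square roots
  have hs2 : √(4 * Real.pi * H) = √2 * q := by
    rw [hq, ← Real.sqrt_mul (by norm_num)]
    congr 1
    ring
  have hsq2 : √2 ≤ 3 / 2 := by
    rw [Real.sqrt_le_left (by norm_num)]
    norm_num
  have hexp : Real.exp (-(H / 16)) ≤ X := by
    rw [hX]
    apply Real.exp_le_exp.2
    have hN1 : (1 : ℝ) ≤ N := by exact_mod_cast hN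
    have : H / (16 * (N : ℝ) ^ 2) ≤ H / 16 := by
      apply div_le_div_of_nonneg_left hH0.le (by norm_num)
      nlinarith
    linarith
  have hC0 : 0 ≤ C0 := by
    unfold C0
    exact tsum_nonneg fun n => div_nonneg ArithmeticFunction.vonMangoldt_nonneg (by positivity)
  -- combine
  have c1 : (cexp ((φ : ℂ) * I) * Rt S r σ T H).re
      ≤ 2 * (2 - σ) * (W * K * (2 * Real.exp (-(H / 8)))) + V * (q * Y) := by
    have e1 : cexp ((φ : ℂ) * I) * Rt S r σ T H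
        = cexp ((φ : ℂ) * I) * (Rt S r σ T H - L) + cexp ((φ : ℂ) * I) * L := by ring
    rw [e1, Complex.add_re]
    exact add_le_add ((re_le φ _).trans hshift) hleft
  have c2 : -(cexp ((φ : ℂ) * I) * ((q : ℂ) * Dg S r σ)).re
      ≤ C0 * (S.card : ℝ) ^ 2 * (N : ℝ) ^ 2 * (2 * √(4 * Real.pi * H) * Real.exp (-(H / 16)) +
        3 * q * X) + (cexp ((φ : ℂ) * I) * Rt S r σ T H).re := by
    have e1 : -(cexp ((φ : ℂ) * I) * ((q : ℂ) * Dg S r σ)).re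
        = (cexp ((φ : ℂ) * I) * -(Rt S r σ T H + (q : ℂ) * Dg S r σ)).re
          + (cexp ((φ : ℂ) * I) * Rt S r σ T H).re := by
      rw [← Complex.add_re, ← Complex.neg_re]
      congr 1
      ring
    rw [e1]
    have e2 := re_le φ (-(Rt S r σ T H + (q : ℂ) * Dg S r σ))
    rw [norm_neg] at e2
    linarith
  have c3 : (cexp ((φ : ℂ) * I) * ((q : ℂ) * Dg S r σ)).re
      = q * (cexp ((φ : ℂ) * I) * Dg S r σ).re := by
    have : cexp ((φ : ℂ) * I) * ((q : ℂ) * Dg S r σ) = (q : ℂ) * (cexp ((φ : ℂ) * I) * Dg S r σ) := by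
      ring
    rw [this, Complex.re_ofReal_mul]
  rw [c3] at c2
  have c4 : 2 * √(4 * Real.pi * H) * Real.exp (-(H / 16)) ≤ 3 * q * X := by
    rw [hs2]
    have h9 : 2 * (√2 * q) ≤ 3 * q := by nlinarith
    exact mul_le_mul h9 hexp (Real.exp_pos _).le (by positivity)
  have c5 : C0 * (S.card : ℝ) ^ 2 * (N : ℝ) ^ 2 * (2 * √(4 * Real.pi * H) * Real.exp (-(H / 16)) +
        3 * q * X) ≤ q * (6 * C0 * (S.card : ℝ) ^ 2 * (N : ℝ) ^ 2 * X) := by
    have h9 : 0 ≤ C0 * (S.card : ℝ) ^ 2 * (N : ℝ) ^ 2 := by positivity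
    calc _ ≤ C0 * (S.card : ℝ) ^ 2 * (N : ℝ) ^ 2 * (3 * q * X + 3 * q * X) :=
          mul_le_mul_of_nonneg_left (by linarith) h9
      _ = _ := by ring
  have c6 : 2 * (2 - σ) * (W * K * (2 * Real.exp (-(H / 8))))
      ≤ q * (8 * W * (S.card : ℝ) ^ 2 * (N : ℝ) ^ 2 * Real.exp (-(H / 8))) := by
    have h9 : 0 ≤ W * K * (2 * Real.exp (-(H / 8))) := by positivity
    have h10 : 0 ≤ 8 * W * (S.card : ℝ) ^ 2 * (N : ℝ) ^ 2 * Real.exp (-(H / 8)) := by positivity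
    calc 2 * (2 - σ) * (W * K * (2 * Real.exp (-(H / 8))))
        ≤ 4 * (W * K * (2 * Real.exp (-(H / 8)))) :=
          mul_le_mul_of_nonneg_right (by linarith) h9
      _ = 1 * (8 * W * (S.card : ℝ) ^ 2 * (N : ℝ) ^ 2 * Real.exp (-(H / 8))) := by
          rw [hK]; ring
      _ ≤ _ := mul_le_mul_of_nonneg_right hq1 h10
  have c7 : q * (-(cexp ((φ : ℂ) * I) * Dg S r σ).re) ≤ q * (V * Y +
      8 * W * (S.card : ℝ) ^ 2 * (N : ℝ) ^ 2 * Real.exp (-(H / 8)) +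
      6 * C0 * (S.card : ℝ) ^ 2 * (N : ℝ) ^ 2 * X) := by
    have h9 : q * (V * Y + 8 * W * (S.card : ℝ) ^ 2 * (N : ℝ) ^ 2 * Real.exp (-(H / 8)) +
        6 * C0 * (S.card : ℝ) ^ 2 * (N : ℝ) ^ 2 * X)
        = V * (q * Y) + q * (8 * W * (S.card : ℝ) ^ 2 * (N : ℝ) ^ 2 * Real.exp (-(H / 8)))
          + q * (6 * C0 * (S.card : ℝ) ^ 2 * (N : ℝ) ^ 2 * X) := by ring
    rw [h9]
    linarith
  exact le_of_mul_le_mul_left c7 hq0

end Pool.Agent.Work.MP_e9b29d_win
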