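import Pool.Agent.Work.MP_e9b29d_win.Interface

set_option autoImplicit false

open Complex MeasureTheory Set

namespace Pool.Agent.Work.MP_e9b29d_win

namespace MEANaux

theorem kg_eq (H u la lb t : ℝ) :
    cexp (-((la : ℝ) : ℂ) * ((t : ℂ) * I)) *
      (starRingEnd ℂ) (cexp (-((lb : ℝ) : ℂ) * ((t : ℂ) * I))) *
      ((Real.exp (-((t - u) ^ 2 / (2 * H))) : ℝ) : ℂ) = kg H 0 (la - lb) u t := by
  rw [← Complex.exp_conj, ← Complex.exp_add, Complex.ofReal_exp, ← Complex.exp_add]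
  unfold kg
  congr 1
  have hI : (((0 : ℝ) : ℂ) + (t : ℂ) * I - (u : ℂ) * I) ^ 2 = -(((t : ℂ) - u) ^ 2) := by
    have : (((0 : ℝ) : ℂ) + (t : ℂ) * I - (u : ℂ) * I) ^ 2 = ((t : ℂ) - u) ^ 2 * I ^ 2 := by
      push_cast
      ring
    rw [this, I_sq]
    ring
  rw [hI]
  simp only [map_mul, map_neg, Complex.conj_ofReal, Complex.conj_I]
  push_cast
  ring

end MEANaux

open MEANaux in
theorem p_MEAN (hG : Stmt_GI) (hS : Stmt_SEP) : Stmt_MEAN := by
  intro S N r T H hOk hH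
  obtain ⟨hSN, hr⟩ := hOk
  have hH0 : 0 < H := by linarith
  set u : ℝ := T + H / 2 with hu
  set w : ℝ → ℝ := fun t => ‖∑ a ∈ S, r a * cexp (-((Real.log (a : ℝ) : ℝ) : ℂ) * ((t : ℂ) * I))‖ ^ 2 *
    Real.exp (-((t - u) ^ 2 / (2 * H))) with hw
  have hw0 : ∀ t, 0 ≤ w t := fun t => by positivity
  set W : ℝ → ℂ := fun t => ∑ a ∈ S, ∑ b ∈ S,
    r a * (starRingEnd ℂ) (r b) * kg H 0 (Real.log ((a : ℝ) / (b : ℝ))) u t with hW
  have hwW : ∀ t, ((w t : ℝ) : ℂ) = W t := by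
    intro t
    simp only [hw, hW]
    push_cast
    rw [← Complex.mul_conj', map_sum, Finset.sum_mul_sum, Finset.sum_mul]
    refine Finset.sum_congr rfl fun a ha => ?_
    rw [Finset.sum_mul]
    refine Finset.sum_congr rfl fun b hb => ?_
    have ha1 : (a : ℝ) ≠ 0 := by
      have := (hSN a ha).1
      positivity
    have hb1 : (b : ℝ) ≠ 0 := by
      have := (hSN b hb).1
      positivity
    rw [Real.log_div ha1 hb1, ← kg_eq, map_mul]
    push_cast
    ring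
  have hint : ∀ a b : ℕ, Integrable (fun t : ℝ =>
      r a * (starRingEnd ℂ) (r b) * kg H 0 (Real.log ((a : ℝ) / (b : ℝ))) u t) := fun a b =>
    (hG H 0 (Real.log ((a : ℝ) / (b : ℝ))) u hH0).1.const_mul _
  have hWint : Integrable W := by
    simp only [hW]
    exact integrable_finsetSum _ fun a _ => integrable_finsetSum _ fun b _ => hint a b
  have hwint : Integrable w := by
    have h1 : w = fun t => ‖W t‖ := by
      funext t
      rw [← hwW, Complex.norm_real, Real.norm_eq_abs, abs_of_nonneg (hw0 t)]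
    rw [h1]
    exact hWint.norm
  have h1 : ∫ t in T..(T + H), w t ≤ ∫ t, w t := by
    rw [intervalIntegral.integral_of_le (by linarith)]
    exact setIntegral_le_integral hwint (Filter.Eventually.of_forall hw0)
  have h2 : ∫ t, w t ≤ ‖∫ t, W t‖ := by
    have h3 : ∫ t, W t = ((∫ t, w t : ℝ) : ℂ) := by
      have h9 : ∫ t, ((w t : ℝ) : ℂ) = ((∫ t, w t : ℝ) : ℂ) := integral_ofReal
      rw [← h9]
      exact integral_congr_ae (Filter.Eventually.of_forall fun t => (hwW t).symm)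
    rw [h3, Complex.norm_real, Real.norm_eq_abs]
    exact le_abs_self _
  have h3 : ∫ t, W t = ∑ a ∈ S, ∑ b ∈ S, r a * (starRingEnd ℂ) (r b) *
      (cexp (-((Real.log ((a : ℝ) / (b : ℝ)) * u : ℝ) : ℂ) * I) *
        ((√(2 * Real.pi * H) * Real.exp (-(Real.log ((a : ℝ) / (b : ℝ)) ^ 2 * H / 2)) : ℝ) : ℂ)) := by
    simp only [hW]
    rw [integral_finsetSum _ fun a _ => integrable_finsetSum _ fun b _ => hint a b]
    refine Finset.sum_congr rfl fun a _ => ?_
    rw [integral_finsetSum _ fun b _ => hint a b]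
    refine Finset.sum_congr rfl fun b _ => ?_
    rw [integral_const_mul, (hG H 0 (Real.log ((a : ℝ) / (b : ℝ))) u hH0).2]
  have hq : 0 ≤ √(2 * Real.pi * H) := Real.sqrt_nonneg _
  have h4 : ∀ a ∈ S, ∀ b ∈ S, ‖r a * (starRingEnd ℂ) (r b) *
      (cexp (-((Real.log ((a : ℝ) / (b : ℝ)) * u : ℝ) : ℂ) * I) *
        ((√(2 * Real.pi * H) * Real.exp (-(Real.log ((a : ℝ) / (b : ℝ)) ^ 2 * H / 2)) : ℝ) : ℂ))‖
      ≤ √(2 * Real.pi * H) * ((if a = b then 1 else 0) +
        3 * (N : ℝ) ^ 2 * Real.exp (-(H / (16 * (N : ℝ) ^ 2)))) := by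
    intro a ha b hb
    have e1 : ‖cexp (-((Real.log ((a : ℝ) / (b : ℝ)) * u : ℝ) : ℂ) * I)‖ = 1 := by
      have : -((Real.log ((a : ℝ) / (b : ℝ)) * u : ℝ) : ℂ) * I
          = ((-(Real.log ((a : ℝ) / (b : ℝ)) * u) : ℝ) : ℂ) * I := by push_cast; ring
      rw [this, Complex.norm_exp_ofReal_mul_I]
    rw [norm_mul, norm_mul, norm_mul, e1, one_mul, RCLike.norm_conj, Complex.norm_real,
      Real.norm_eq_abs, abs_of_nonneg (by positivity)]
    have e2 : ‖r a‖ * ‖r b‖ ≤ 1 := mul_le_one₀ (hr a) (norm_nonneg _) (hr b)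
    have e3 : Real.exp (-(Real.log ((a : ℝ) / (b : ℝ)) ^ 2 * H / 2)) ≤ (if a = b then 1 else 0) +
        3 * (N : ℝ) ^ 2 * Real.exp (-(H / (16 * (N : ℝ) ^ 2))) := by
      have e4 : 0 ≤ 3 * (N : ℝ) ^ 2 * Real.exp (-(H / (16 * (N : ℝ) ^ 2))) := by positivity
      by_cases hab : a = b
      · rw [if_pos hab]
        have : Real.exp (-(Real.log ((a : ℝ) / (b : ℝ)) ^ 2 * H / 2)) ≤ 1 := by
          rw [← Real.exp_zero]
          apply Real.exp_le_exp.2
          have : 0 ≤ Real.log ((a : ℝ) / (b : ℝ)) ^ 2 * H / 2 := by positivity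
          linarith
        linarith
      · rw [if_neg hab, zero_add]
        refine (hS a b N H (hSN a ha).1 (hSN b hb).1 (hSN b hb).2 hab hH).trans ?_
        have e5 : ((b : ℝ) / (a : ℝ)) ^ 2 ≤ (N : ℝ) ^ 2 := by
          apply pow_le_pow_left₀ (by positivity)
          have ha1 : (1 : ℝ) ≤ a := by exact_mod_cast (hSN a ha).1
          have hb1 : (b : ℝ) ≤ N := by exact_mod_cast (hSN b hb).2
          rw [div_le_iff₀ (by linarith)]
          nlinarith [show (0 : ℝ) ≤ N from Nat.cast_nonneg _]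
        have e6 : 0 ≤ Real.exp (-(H / (16 * (N : ℝ) ^ 2))) * 3 := by positivity
        calc _ ≤ Real.exp (-(H / (16 * (N : ℝ) ^ 2))) * 3 * (N : ℝ) ^ 2 :=
              mul_le_mul_of_nonneg_left e5 e6
          _ = _ := by ring
    calc ‖r a‖ * ‖r b‖ * (√(2 * Real.pi * H) *
          Real.exp (-(Real.log ((a : ℝ) / (b : ℝ)) ^ 2 * H / 2)))
        ≤ 1 * (√(2 * Real.pi * H) * Real.exp (-(Real.log ((a : ℝ) / (b : ℝ)) ^ 2 * H / 2))) :=
          mul_le_mul_of_nonneg_right e2 (by positivity)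
      _ = √(2 * Real.pi * H) * Real.exp (-(Real.log ((a : ℝ) / (b : ℝ)) ^ 2 * H / 2)) := one_mul _
      _ ≤ _ := mul_le_mul_of_nonneg_left e3 hq
  have h5 : ‖∫ t, W t‖ ≤ ∑ a ∈ S, ∑ b ∈ S, √(2 * Real.pi * H) * ((if a = b then 1 else 0) +
        3 * (N : ℝ) ^ 2 * Real.exp (-(H / (16 * (N : ℝ) ^ 2)))) := by
    rw [h3]
    refine (norm_sum_le _ _).trans (Finset.sum_le_sum fun a ha => ?_)
    exact (norm_sum_le _ _).trans (Finset.sum_le_sum fun b hb => h4 a ha b hb)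
  have h6 : ∑ a ∈ S, ∑ b ∈ S, √(2 * Real.pi * H) * ((if a = b then (1 : ℝ) else 0) +
        3 * (N : ℝ) ^ 2 * Real.exp (-(H / (16 * (N : ℝ) ^ 2))))
      = √(2 * Real.pi * H) * ((S.card : ℝ) + 3 * (S.card : ℝ) ^ 2 * (N : ℝ) ^ 2 *
        Real.exp (-(H / (16 * (N : ℝ) ^ 2)))) := by
    simp only [← Finset.mul_sum, Finset.sum_add_distrib, Finset.sum_const, Finset.sum_ite_eq,
      nsmul_eq_mul]
    congr 1
    congr 1
    · rw [Finset.sum_congr rfl fun a ha => if_pos ha]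
      simp
    · ring
  calc ∫ t in T..(T + H), w t ≤ ∫ t, w t := h1
    _ ≤ ‖∫ t, W t‖ := h2
    _ ≤ _ := h5
    _ = _ := h6

end Pool.Agent.Work.MP_e9b29d_win
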