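import Pool.Agent.Work.MP_e9b29d_win.Interface

/-!
# MP_e9b29d_nt, large values in every window, block PT (helper79)
-/

set_option autoImplicit false

open Complex MeasureTheory Set

namespace Pool.Agent.Work.MP_e9b29d_win

namespace PT

lemma sq_eq (N n : ℕ) (hN : 1 ≤ N) (hn : 1 ≤ n) :
    (N : ℝ) ^ 2 / (n : ℝ) ^ 2 = Real.exp (2 * Real.log N - 2 * Real.log n) := by
  have hN0 : (0 : ℝ) < N := by exact_mod_cast hN
  have hn0 : (0 : ℝ) < n := by exact_mod_cast hn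
  rw [Real.exp_sub, two_mul, two_mul, Real.exp_add, Real.exp_add, Real.exp_log hN0,
    Real.exp_log hn0, sq, sq]

lemma key (n a b N : ℕ) (σ : ℝ) (hn : 1 ≤ n) (ha : 1 ≤ a) (hb : 1 ≤ b) (hbN : b ≤ N)
    (hσ : 0 < σ) (hσ1 : σ < 1) :
    (n : ℝ) ^ (-σ) * Real.exp (-(Real.log ((n : ℝ) * a / b) * (2 - σ)))
      ≤ (N : ℝ) ^ 2 / (n : ℝ) ^ 2 := by
  have hn0 : (0 : ℝ) < n := by exact_mod_cast hn
  have ha0 : (0 : ℝ) < a := by exact_mod_cast ha
  have hb0 : (0 : ℝ) < b := by exact_mod_cast hb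
  have hN : 1 ≤ N := hb.trans hbN
  rw [sq_eq N n hN hn, Real.rpow_def_of_pos hn0, ← Real.exp_add, Real.exp_le_exp,
    Real.log_div (by positivity) hb0.ne', Real.log_mul hn0.ne' ha0.ne']
  have h1 : 0 ≤ Real.log a := Real.log_nonneg (by exact_mod_cast ha)
  have h2 : Real.log b ≤ Real.log N := Real.log_le_log hb0 (by exact_mod_cast hbN)
  have h3 : 0 ≤ Real.log N := Real.log_nonneg (by exact_mod_cast hN)
  have h4 : (2 - σ) * (Real.log b - Real.log a) ≤ (2 - σ) * Real.log N :=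
    mul_le_mul_of_nonneg_left (by linarith) (by linarith)
  have h5 : 0 ≤ σ * Real.log N := mul_nonneg hσ.le h3
  nlinarith

end PT

theorem p_PT (hT : Stmt_TAIL) (hS : Stmt_SEP) : Stmt_PT := by
  intro n a b N σ T H hn ha hb haN hbN hσ hσ1 hH
  have hn1 : (1 : ℝ) ≤ n := by exact_mod_cast hn
  have hn0 : (0 : ℝ) < n := by linarith
  have ha1 : (1 : ℝ) ≤ a := by exact_mod_cast ha
  have hb1 : (1 : ℝ) ≤ b := by exact_mod_cast hb
  have hbN' : (b : ℝ) ≤ N := by exact_mod_cast hbN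
  have hN1 : (1 : ℝ) ≤ N := hb1.trans hbN'
  have hT1 := hT H (2 - σ) (Real.log ((n : ℝ) * a / b)) T hH (by linarith) (by linarith)
  obtain ⟨J, hJ⟩ : ∃ J : ℂ, J = ∫ t in T..(T + H), kg H (2 - σ) (Real.log ((n : ℝ) * a / b))
      (T + H / 2) t := ⟨_, rfl⟩
  rw [← hJ] at hT1 ⊢
  obtain ⟨E1, hE1⟩ : ∃ E1 : ℝ, E1 = 2 * √(4 * Real.pi * H) * Real.exp (-(H / 16)) := ⟨_, rfl⟩
  obtain ⟨E2, hE2⟩ : ∃ E2 : ℝ, E2 = Real.exp (-(H / (16 * (N : ℝ) ^ 2))) := ⟨_, rfl⟩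
  obtain ⟨Q, hQ⟩ : ∃ Q : ℝ, Q = √(2 * Real.pi * H) := ⟨_, rfl⟩
  have hE1' : 2 * √(4 * Real.pi * H) * Real.exp (-(H / 16)) = E1 := hE1.symm
  have hE10 : 0 ≤ E1 := by rw [hE1]; positivity
  have hE20 : 0 ≤ E2 := by rw [hE2]; positivity
  have hQ0 : 0 ≤ Q := by rw [hQ]; positivity
  rw [← hE1, ← hQ] at hT1
  rw [← hE1, ← hE2, ← hQ]
  have hnp : 0 < (n : ℝ) ^ (-σ) := Real.rpow_pos_of_pos hn0 _
  have hnp1 : (n : ℝ) ^ (-σ) ≤ 1 := by
    rw [← Real.rpow_zero (n : ℝ)]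
    exact Real.rpow_le_rpow_of_exponent_le hn1 (by linarith)
  by_cases hab : n * a = b
  · rw [if_pos hab]
    have habR : (n : ℝ) * a = b := by exact_mod_cast hab
    have hl : Real.log ((n : ℝ) * a / b) = 0 := by
      rw [habR, div_self (by linarith), Real.log_one]
    rw [hl] at hT1
    have e1 : cexp (-((0 * (T + H / 2) : ℝ) : ℂ) * I) *
        ((Q * Real.exp (-((0 : ℝ) ^ 2 * H / 2)) : ℝ) : ℂ) = ((Q : ℝ) : ℂ) := by
      simp
    rw [e1] at hT1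
    have e2 : Real.exp (-(0 * (2 - σ))) * E1 = E1 := by simp
    rw [e2] at hT1
    have hnN : (n : ℝ) ≤ N := by
      have : (n : ℝ) ≤ n * a := by nlinarith
      linarith
    have h1 : 1 ≤ (N : ℝ) ^ 2 / (n : ℝ) ^ 2 := by
      rw [one_le_div (by positivity)]
      exact pow_le_pow_left₀ hn0.le hnN 2
    calc (n : ℝ) ^ (-σ) * ‖J - ((Q : ℝ) : ℂ)‖ ≤ 1 * E1 :=
          mul_le_mul hnp1 hT1 (norm_nonneg _) zero_le_one
      _ ≤ (N : ℝ) ^ 2 / (n : ℝ) ^ 2 * (E1 + 3 * Q * E2) :=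
          mul_le_mul h1 (by nlinarith [mul_nonneg hQ0 hE20]) hE10 (by linarith)
  · rw [if_neg hab, sub_zero]
    have hx : 1 ≤ n * a := Nat.mul_pos hn ha
    have hS1 := hS (n * a) b N H hx hb hbN hab hH
    push_cast at hS1
    rw [← hE2] at hS1
    obtain ⟨l, hl⟩ : ∃ l : ℝ, l = Real.log ((n : ℝ) * a / b) := ⟨_, rfl⟩
    rw [← hl] at hT1 hS1
    have hk := PT.key n a b N σ hn ha hb hbN hσ hσ1
    rw [← hl] at hk
    have hG : ‖cexp (-((l * (T + H / 2) : ℝ) : ℂ) * I) *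
        ((Q * Real.exp (-(l ^ 2 * H / 2)) : ℝ) : ℂ)‖ = Q * Real.exp (-(l ^ 2 * H / 2)) := by
      have h1 : (-((l * (T + H / 2) : ℝ) : ℂ) * I) = ((-(l * (T + H / 2)) : ℝ) : ℂ) * I := by
        push_cast; ring
      rw [norm_mul, h1, Complex.norm_exp_ofReal_mul_I, one_mul, Complex.norm_real,
        Real.norm_eq_abs, abs_of_nonneg (by positivity)]
    have hJ1 : ‖J‖ ≤ Real.exp (-(l * (2 - σ))) * E1 + Q * Real.exp (-(l ^ 2 * H / 2)) := by
      have h1 := norm_add_le (J - cexp (-((l * (T + H / 2) : ℝ) : ℂ) * I) *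
        ((Q * Real.exp (-(l ^ 2 * H / 2)) : ℝ) : ℂ))
        (cexp (-((l * (T + H / 2) : ℝ) : ℂ) * I) *
        ((Q * Real.exp (-(l ^ 2 * H / 2)) : ℝ) : ℂ))
      rw [sub_add_cancel, hG] at h1
      linarith
    have h2 : ((b : ℝ) / (n * a)) ^ 2 ≤ (N : ℝ) ^ 2 / (n : ℝ) ^ 2 := by
      rw [← div_pow]
      apply pow_le_pow_left₀ (by positivity)
      rw [div_le_div_iff₀ (by positivity) hn0]
      have : (b : ℝ) * 1 ≤ N * a := mul_le_mul hbN' ha1 zero_le_one (by linarith)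
      nlinarith
    calc (n : ℝ) ^ (-σ) * ‖J‖
        ≤ (n : ℝ) ^ (-σ) * (Real.exp (-(l * (2 - σ))) * E1 + Q * Real.exp (-(l ^ 2 * H / 2))) :=
          mul_le_mul_of_nonneg_left hJ1 hnp.le
      _ = (n : ℝ) ^ (-σ) * Real.exp (-(l * (2 - σ))) * E1 +
          (n : ℝ) ^ (-σ) * (Q * Real.exp (-(l ^ 2 * H / 2))) := by ring
      _ ≤ (N : ℝ) ^ 2 / (n : ℝ) ^ 2 * E1 + 1 * (Q * (E2 * 3 * ((N : ℝ) ^ 2 / (n : ℝ) ^ 2))) := by
          apply add_le_add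
          · exact mul_le_mul_of_nonneg_right hk hE10
          · apply mul_le_mul hnp1 _ (by positivity) zero_le_one
            apply mul_le_mul_of_nonneg_left _ hQ0
            refine hS1.trans ?_
            exact mul_le_mul_of_nonneg_left h2 (by positivity)
      _ = (N : ℝ) ^ 2 / (n : ℝ) ^ 2 * (E1 + 3 * Q * E2) := by ring

end Pool.Agent.Work.MP_e9b29d_win
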