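import Pool.Agent.Work.MP_e9b29d_win.Interface

/-!
# RIGHT: the line `Re = 2`
-/

set_option autoImplicit false

open Complex MeasureTheory Set

namespace Pool.Agent.Work.MP_e9b29d_win

namespace RIGHT

theorem summable_C0 : Summable (fun n : ℕ => ArithmeticFunction.vonMangoldt n / (n : ℝ) ^ 2) := by
  have h := (ArithmeticFunction.LSeriesSummable_vonMangoldt (s := 2) (by norm_num)).norm
  refine h.congr fun n => ?_
  rw [LSeries.norm_term_eq]
  by_cases hn : n = 0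
  · subst hn
    simp
  · rw [if_neg hn]
    have h1 : ‖((ArithmeticFunction.vonMangoldt n : ℝ) : ℂ)‖ = ArithmeticFunction.vonMangoldt n := by
      rw [Complex.norm_real, Real.norm_of_nonneg ArithmeticFunction.vonMangoldt_nonneg]
    rw [h1]
    congr 1
    norm_num

/-- the diagonal -/
theorem diag (S : Finset ℕ) (N : ℕ) (r : ℕ → ℂ) (σ c : ℝ) (h : Ok S N r) :
    HasSum (fun n : ℕ => ∑ a ∈ S, ∑ b ∈ S,
      ((ArithmeticFunction.vonMangoldt n * (n : ℝ) ^ (-σ) : ℝ) : ℂ) * (r a * (starRingEnd ℂ) (r b)) *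
        (if n * a = b then ((c : ℝ) : ℂ) else 0)) ((c : ℂ) * Dg S r σ) := by
  unfold Dg
  rw [Finset.mul_sum]
  refine hasSum_sum fun a ha => ?_
  rw [Finset.mul_sum]
  refine hasSum_sum fun b hb => ?_
  have ha1 := (h.1 a ha).1
  by_cases hd : a ∣ b
  · rw [if_pos hd]
    obtain ⟨k, rfl⟩ := hd
    have e1 : a * k / a = k := Nat.mul_div_cancel_left k ha1
    rw [e1]
    have e2 := hasSum_ite_eq k ((c : ℂ) * (r a * (starRingEnd ℂ) (r (a * k)) *
      ((ArithmeticFunction.vonMangoldt k * (k : ℝ) ^ (-σ) : ℝ) : ℂ)))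
    convert e2 using 2 with n
    by_cases hn : n = k
    · subst hn
      rw [if_pos (mul_comm _ _), if_pos rfl]
      ring
    · rw [if_neg hn, if_neg (fun h1 => hn ?_), mul_zero]
      rw [mul_comm n a] at h1
      exact Nat.eq_of_mul_eq_mul_left ha1 h1
  · rw [if_neg hd, mul_zero]
    convert hasSum_zero using 2 with n
    rw [if_neg (fun h1 => hd ⟨n, by rw [← h1, mul_comm]⟩), mul_zero]

end RIGHT

open RIGHT

theorem stmt_RIGHT (hE : Stmt_TERM) (hP : Stmt_PT) : Stmt_RIGHT := by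
  intro S N r σ T H hok hσ hσ1 hH
  have h1 := hE S N r σ T H hok hσ hσ1 hH
  have h2 := diag S N r σ (√(2 * Real.pi * H)) hok
  have h3 := h1.sub h2
  obtain ⟨B, hB⟩ : ∃ B : ℝ, B = 2 * √(4 * Real.pi * H) * Real.exp (-(H / 16)) +
      3 * √(2 * Real.pi * H) * Real.exp (-(H / (16 * (N : ℝ) ^ 2))) := ⟨_, rfl⟩
  have h4 : HasSum (fun n : ℕ => ArithmeticFunction.vonMangoldt n / (n : ℝ) ^ 2 *
      ((S.card : ℝ) ^ 2 * (N : ℝ) ^ 2 * B)) (C0 * ((S.card : ℝ) ^ 2 * (N : ℝ) ^ 2 * B)) :=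
    summable_C0.hasSum.mul_right _
  have key : ∀ n : ℕ, ‖(∑ a ∈ S, ∑ b ∈ S,
      ((ArithmeticFunction.vonMangoldt n * (n : ℝ) ^ (-σ) : ℝ) : ℂ) * (r a * (starRingEnd ℂ) (r b)) *
        ∫ t in T..(T + H), kg H (2 - σ) (Real.log ((n : ℝ) * a / b)) (T + H / 2) t) -
      ∑ a ∈ S, ∑ b ∈ S,
      ((ArithmeticFunction.vonMangoldt n * (n : ℝ) ^ (-σ) : ℝ) : ℂ) * (r a * (starRingEnd ℂ) (r b)) *
        (if n * a = b then ((√(2 * Real.pi * H) : ℝ) : ℂ) else 0)‖ ≤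
      ArithmeticFunction.vonMangoldt n / (n : ℝ) ^ 2 * ((S.card : ℝ) ^ 2 * (N : ℝ) ^ 2 * B) := by
    intro n
    rcases Nat.eq_zero_or_pos n with hn | hn
    · subst hn
      simp
    rw [← Finset.sum_sub_distrib]
    have hL : (0 : ℝ) ≤ ArithmeticFunction.vonMangoldt n := ArithmeticFunction.vonMangoldt_nonneg
    have hterm : ∀ a ∈ S, ‖(∑ b ∈ S, ((ArithmeticFunction.vonMangoldt n * (n : ℝ) ^ (-σ) : ℝ) : ℂ) *
        (r a * (starRingEnd ℂ) (r b)) *
        ∫ t in T..(T + H), kg H (2 - σ) (Real.log ((n : ℝ) * a / b)) (T + H / 2) t) -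
        ∑ b ∈ S, ((ArithmeticFunction.vonMangoldt n * (n : ℝ) ^ (-σ) : ℝ) : ℂ) * (r a * (starRingEnd ℂ) (r b)) *
        (if n * a = b then ((√(2 * Real.pi * H) : ℝ) : ℂ) else 0)‖ ≤
        (S.card : ℝ) * (ArithmeticFunction.vonMangoldt n * ((N : ℝ) ^ 2 / (n : ℝ) ^ 2 * B)) := by
      intro a ha
      rw [← Finset.sum_sub_distrib]
      refine (norm_sum_le _ _).trans ((Finset.sum_le_card_nsmul _ _
        (ArithmeticFunction.vonMangoldt n * ((N : ℝ) ^ 2 / (n : ℝ) ^ 2 * B)) fun b hb => ?_).trans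
        (le_of_eq (nsmul_eq_mul _ _)))
      rw [← mul_sub, norm_mul, norm_mul, norm_mul, RCLike.norm_conj, Complex.norm_real,
        Real.norm_of_nonneg (mul_nonneg hL (Real.rpow_nonneg (Nat.cast_nonneg n) _))]
      have p := hP n a b N σ T H hn (hok.1 a ha).1 (hok.1 b hb).1 (hok.1 a ha).2 (hok.1 b hb).2 hσ hσ1 hH
      rw [← hB] at p
      generalize (∫ t in T..(T + H), kg H (2 - σ) (Real.log ((n : ℝ) * a / b)) (T + H / 2) t) -
        (if n * a = b then ((√(2 * Real.pi * H) : ℝ) : ℂ) else 0) = z at p ⊢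
      have hr : ‖r a‖ * ‖r b‖ ≤ 1 := mul_le_one₀ (hok.2 a) (norm_nonneg _) (hok.2 b)
      calc ArithmeticFunction.vonMangoldt n * (n : ℝ) ^ (-σ) * (‖r a‖ * ‖r b‖) * ‖z‖
          = ArithmeticFunction.vonMangoldt n * ((n : ℝ) ^ (-σ) * ‖z‖) * (‖r a‖ * ‖r b‖) := by ring
        _ ≤ ArithmeticFunction.vonMangoldt n * ((n : ℝ) ^ (-σ) * ‖z‖) * 1 := by
            refine mul_le_mul_of_nonneg_left hr ?_
            exact mul_nonneg hL (mul_nonneg (Real.rpow_nonneg (Nat.cast_nonneg n) _) (norm_nonneg _))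
        _ = ArithmeticFunction.vonMangoldt n * ((n : ℝ) ^ (-σ) * ‖z‖) := mul_one _
        _ ≤ _ := mul_le_mul_of_nonneg_left p hL
    refine (norm_sum_le _ _).trans ((Finset.sum_le_card_nsmul _ _ _ hterm).trans (le_of_eq ?_))
    rw [nsmul_eq_mul]
    ring
  have h5 := h3.norm_le_of_bounded h4 key
  have e : -Rt S r σ T H - ((√(2 * Real.pi * H) : ℝ) : ℂ) * Dg S r σ =
      -(Rt S r σ T H + ((√(2 * Real.pi * H) : ℝ) : ℂ) * Dg S r σ) := by ring
  rw [e, norm_neg] at h5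
  refine h5.trans (le_of_eq ?_)
  rw [hB]
  ring

end Pool.Agent.Work.MP_e9b29d_win
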