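import Mathlib
import Pool.Agent.Work.MP_e9b29d_win.Interface

/-!
# MP_e9b29d_nt, block SEP: different integers are separated (typed by helper98)
-/

set_option autoImplicit false

namespace Pool.Agent.Work.MP_e9b29d_win

namespace SEP

theorem absL {x b N : ℕ} (hx : 1 ≤ x) (hb : 1 ≤ b) (hbN : b ≤ N) (hne : x ≠ b) :
    1 / (4 * (N : ℝ) ^ 2) ≤ Real.log ((x : ℝ) / (b : ℝ)) ^ 2 := by
  have hb0 : (0 : ℝ) < b := by exact_mod_cast hb
  have hx0 : (0 : ℝ) < x := by exact_mod_cast hx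
  have hN0 : (0 : ℝ) < N := by exact_mod_cast (hb.trans hbN)
  have hbN' : (b : ℝ) ≤ N := by exact_mod_cast hbN
  have hb1 : (1 : ℝ) ≤ b := by exact_mod_cast hb
  have key : 1 / (2 * (N : ℝ)) ≤ |Real.log ((x : ℝ) / (b : ℝ))| := by
    rcases lt_or_gt_of_ne hne with h | h
    · have h1 : (x : ℝ) + 1 ≤ b := by exact_mod_cast h
      have h2 : Real.log ((x : ℝ) / b) ≤ (x : ℝ) / b - 1 :=
        Real.log_le_sub_one_of_pos (by positivity)
      have h3 : (x : ℝ) / b ≤ 1 - 1 / b := by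
        rw [div_le_iff₀ hb0, sub_mul, one_div, inv_mul_cancel₀ hb0.ne']
        linarith
      have h4 : 1 / (2 * (N : ℝ)) ≤ 1 / b := by
        apply one_div_le_one_div_of_le hb0
        linarith
      rw [le_abs]
      right
      linarith
    · have h1 : (b : ℝ) + 1 ≤ x := by exact_mod_cast h
      have h2 := Real.one_sub_inv_le_log_of_pos (show (0 : ℝ) < (x : ℝ) / b by positivity)
      rw [inv_div] at h2
      have h5 : (b : ℝ) / x ≤ b / (b + 1) :=
        div_le_div_of_nonneg_left hb0.le (by linarith) h1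
      have h6 : (b : ℝ) / (b + 1) = 1 - 1 / (b + 1) := by
        field_simp
        ring
      have h7 : 1 / (2 * (N : ℝ)) ≤ 1 / (b + 1) :=
        one_div_le_one_div_of_le (by linarith) (by linarith)
      rw [le_abs]
      left
      linarith
  have h0 : (0 : ℝ) ≤ 1 / (2 * (N : ℝ)) := by positivity
  have h1 := pow_le_pow_left₀ h0 key 2
  rw [sq_abs] at h1
  have h2 : 1 / (4 * (N : ℝ) ^ 2) = (1 / (2 * (N : ℝ))) ^ 2 := by
    rw [div_pow, mul_pow]
    norm_num
  rw [h2]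
  exact h1

end SEP

open SEP in
theorem p_SEP : Stmt_SEP := by
  intro x b N H hx hb hbN hne hH
  have hb0 : (0 : ℝ) < b := by exact_mod_cast hb
  have hx0 : (0 : ℝ) < x := by exact_mod_cast hx
  have hN0 : (0 : ℝ) < N := by exact_mod_cast (hb.trans hbN)
  have hH0 : (0 : ℝ) < H := by linarith
  have hL := absL hx hb hbN hne
  set L : ℝ := Real.log ((x : ℝ) / (b : ℝ)) with hLdef
  have h1 : H / (16 * (N : ℝ) ^ 2) ≤ L ^ 2 * H / 4 := by
    have h2 : H / (16 * (N : ℝ) ^ 2) = (1 / (4 * (N : ℝ) ^ 2)) * (H / 4) := by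
      field_simp
      norm_num
    rw [h2]
    have h3 := mul_le_mul_of_nonneg_right hL (show (0 : ℝ) ≤ H / 4 by positivity)
    linarith
  have h2 : 2 * L - 1 ≤ L ^ 2 * H / 4 := by
    have h3 : L ^ 2 * 4 / 4 ≤ L ^ 2 * H / 4 := by
      have := mul_le_mul_of_nonneg_left hH (sq_nonneg L)
      linarith
    nlinarith [sq_nonneg (L - 1)]
  have h3 : Real.exp (-(2 * L)) = ((b : ℝ) / (x : ℝ)) ^ 2 := by
    have h4 : Real.exp (-L) = (b : ℝ) / x := by
      rw [Real.exp_neg, hLdef, Real.exp_log (by positivity), inv_div]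
    rw [← h4, ← Real.exp_nat_mul]
    congr 1
    push_cast
    ring
  have h4 : Real.exp 1 ≤ 3 := Real.exp_one_lt_d9.le.trans (by norm_num)
  calc Real.exp (-(L ^ 2 * H / 2))
      ≤ Real.exp (-(H / (16 * (N : ℝ) ^ 2)) + 1 + -(2 * L)) := by
        apply Real.exp_le_exp.2
        linarith
    _ = Real.exp (-(H / (16 * (N : ℝ) ^ 2))) * Real.exp 1 * ((b : ℝ) / (x : ℝ)) ^ 2 := by
        rw [Real.exp_add, Real.exp_add, h3]
    _ ≤ Real.exp (-(H / (16 * (N : ℝ) ^ 2))) * 3 * ((b : ℝ) / (x : ℝ)) ^ 2 := by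
        apply mul_le_mul_of_nonneg_right _ (by positivity)
        exact mul_le_mul_of_nonneg_left h4 (Real.exp_pos _).le

end Pool.Agent.Work.MP_e9b29d_win
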