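import Pool.Agent.Work.MP_e9b29d_win.Interface

/-! # Block TAIL: the integral over the window -/

set_option autoImplicit false

open Complex MeasureTheory Set

namespace Pool.Agent.Work.MP_e9b29d_win

namespace TAIL

theorem nkg (H κ l u t : ℝ) : ‖kg H κ l u t‖ =
    Real.exp (-(l * κ) + (κ ^ 2 - (t - u) ^ 2) / (2 * H)) := by
  unfold kg
  rw [Complex.norm_exp]
  congr 1
  have h1 : -(l : ℂ) * ((κ : ℂ) + (t : ℂ) * I) +
      ((κ : ℂ) + (t : ℂ) * I - (u : ℂ) * I) ^ 2 / (2 * (H : ℂ)) =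
      ((-(l * κ) + (κ ^ 2 - (t - u) ^ 2) / (2 * H) : ℝ) : ℂ) +
      ((-(l * t) + 2 * κ * (t - u) / (2 * H) : ℝ) : ℂ) * I := by
    have hI : I ^ 2 = -1 := Complex.I_sq
    push_cast
    have : ((κ : ℂ) + (t : ℂ) * I - (u : ℂ) * I) ^ 2 =
        (κ : ℂ) ^ 2 - ((t : ℂ) - u) ^ 2 + 2 * κ * ((t : ℂ) - u) * I := by
      have e : ((κ : ℂ) + (t : ℂ) * I - (u : ℂ) * I) ^ 2 =
        (κ : ℂ) ^ 2 + ((t : ℂ) - u) ^ 2 * I ^ 2 + 2 * κ * ((t : ℂ) - u) * I := by ring
      rw [e, hI]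
      ring
    rw [this]
    ring
  rw [h1, Complex.add_re, Complex.ofReal_re, Complex.re_ofReal_mul, Complex.I_re, mul_zero,
    add_zero]

theorem bd (H κ l u t : ℝ) (hH : 4 ≤ H) (h0 : 0 ≤ κ) (h2 : κ ≤ 2) (ht : H / 2 ≤ |t - u|) :
    ‖kg H κ l u t‖ ≤ Real.exp (-(l * κ)) * (2 * Real.exp (-(H / 16))) *
      Real.exp (-(1 / (4 * H)) * (t - u) ^ 2) := by
  have hH0 : 0 < H := by linarith
  rw [nkg]
  have e2 : Real.exp (1 / 2 : ℝ) ≤ 2 := by
    have h : Real.exp (1 / 2 : ℝ) ^ 2 = Real.exp 1 := by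
      rw [← Real.exp_nat_mul]
      norm_num
    have h' := Real.exp_one_lt_d9
    nlinarith [Real.exp_pos (1 / 2 : ℝ)]
  have hs : (H / 2) ^ 2 ≤ (t - u) ^ 2 := by
    rw [← sq_abs (t - u)]
    exact pow_le_pow_left₀ (by linarith) ht 2
  have k1 : κ ^ 2 / (2 * H) ≤ 1 / 2 := by
    rw [div_le_iff₀ (by linarith)]
    nlinarith
  have k2 : H / 16 ≤ (t - u) ^ 2 / (4 * H) := by
    rw [le_div_iff₀ (by linarith)]
    nlinarith
  have k3 : -(l * κ) + (κ ^ 2 - (t - u) ^ 2) / (2 * H) ≤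
      -(l * κ) + (1 / 2 + -(H / 16)) + -(1 / (4 * H)) * (t - u) ^ 2 := by
    have e : (κ ^ 2 - (t - u) ^ 2) / (2 * H) = κ ^ 2 / (2 * H) - (t - u) ^ 2 / (4 * H) -
        (t - u) ^ 2 / (4 * H) := by
      field_simp
      ring
    have e' : -(1 / (4 * H)) * (t - u) ^ 2 = - ((t - u) ^ 2 / (4 * H)) := by ring
    rw [e, e']
    linarith
  calc Real.exp (-(l * κ) + (κ ^ 2 - (t - u) ^ 2) / (2 * H))
      ≤ Real.exp (-(l * κ) + (1 / 2 + -(H / 16)) + -(1 / (4 * H)) * (t - u) ^ 2) :=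
        Real.exp_le_exp.mpr k3
    _ = Real.exp (-(l * κ)) * (Real.exp (1 / 2) * Real.exp (-(H / 16))) *
        Real.exp (-(1 / (4 * H)) * (t - u) ^ 2) := by
        rw [Real.exp_add, Real.exp_add, Real.exp_add]
    _ ≤ _ := by
        gcongr

end TAIL

open TAIL in
theorem p_TAIL (hG : Stmt_GI) : Stmt_TAIL := by
  intro H κ l T hH h0 h2
  have hH0 : 0 < H := by linarith
  obtain ⟨hi, hv⟩ := hG H κ l (T + H / 2) hH0
  rw [← hv, intervalIntegral.integral_of_le (by linarith : T ≤ T + H)]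
  have hc := integral_add_compl (measurableSet_Ioc : MeasurableSet (Ioc T (T + H))) hi
  have he : (∫ t in Ioc T (T + H), kg H κ l (T + H / 2) t) - ∫ t, kg H κ l (T + H / 2) t =
      - ∫ t in (Ioc T (T + H))ᶜ, kg H κ l (T + H / 2) t := by
    rw [← hc]
    ring
  rw [he, norm_neg]
  set G : ℝ → ℝ := fun t => Real.exp (-(l * κ)) * (2 * Real.exp (-(H / 16))) *
      Real.exp (-(1 / (4 * H)) * (t - (T + H / 2)) ^ 2) with hGd
  have hb : 0 < 1 / (4 * H) := by positivity
  have hGi : Integrable G := by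
    apply Integrable.const_mul
    exact (integrable_exp_neg_mul_sq hb).comp_sub_right (T + H / 2)
  have hGI : ∫ t, G t = Real.exp (-(l * κ)) * (2 * √(4 * Real.pi * H) * Real.exp (-(H / 16))) := by
    simp only [hGd]
    rw [integral_const_mul, integral_sub_right_eq_self (fun t => Real.exp (-(1 / (4 * H)) * t ^ 2)),
      integral_gaussian]
    have : Real.pi / (1 / (4 * H)) = 4 * Real.pi * H := by
      field_simp
    rw [this]
    ring
  rw [← hGI]
  calc ‖∫ t in (Ioc T (T + H))ᶜ, kg H κ l (T + H / 2) t‖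
      ≤ ∫ t in (Ioc T (T + H))ᶜ, G t := by
        apply norm_integral_le_of_norm_le hGi.integrableOn
        rw [ae_restrict_iff' measurableSet_Ioc.compl]
        apply Filter.Eventually.of_forall
        intro t ht
        apply bd H κ l _ t hH h0 h2
        rw [mem_compl_iff, mem_Ioc, not_and_or, not_lt, not_le] at ht
        rcases ht with ht | ht
        · rw [abs_of_nonpos (by linarith)]
          linarith
        · rw [abs_of_nonneg (by linarith)]
          linarith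
    _ ≤ ∫ t, G t := by
        apply setIntegral_le_integral hGi
        apply Filter.Eventually.of_forall
        intro t
        simp only [hGd, Pi.zero_apply]
        positivity

end Pool.Agent.Work.MP_e9b29d_win

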