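import Pool.Agent.Work.MP_e9b29d_win.Interface

/-!
# Block TERM: termwise integration on the line `Re = 2` (helper63)
-/

set_option autoImplicit false

open Complex MeasureTheory Set

namespace Pool.Agent.Work.MP_e9b29d_win

namespace TERM

/-- the weight -/
noncomputable def W (S : Finset ℕ) (r : ℕ → ℂ) (σ T H t : ℝ) : ℂ :=
  A S r ((2 : ℂ) + (t : ℂ) * I - (σ : ℂ)) *
    cexp (((2 : ℂ) + (t : ℂ) * I - ((σ : ℂ) + ((T + H / 2 : ℝ) : ℂ) * I)) ^ 2 / (2 * (H : ℂ)))

lemma W_cont (S : Finset ℕ) (r : ℕ → ℂ) (σ T H : ℝ) : Continuous (fun t : ℝ => W S r σ T H t) := by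
  unfold W A
  fun_prop

lemma kg_cont (H κ l u : ℝ) : Continuous (fun t : ℝ => kg H κ l u t) := by
  unfold kg
  fun_prop

/-- one exponential -/
lemma key (n a b : ℕ) (σ T H t : ℝ) (hn : n ≠ 0) (ha : a ≠ 0) (hb : b ≠ 0) (c d : ℂ) :
    c / (n : ℂ) ^ ((2 : ℂ) + (t : ℂ) * I) *
      (d * cexp (((Real.log ((b : ℝ) / (a : ℝ)) : ℝ) : ℂ) * ((2 : ℂ) + (t : ℂ) * I - (σ : ℂ)))) *
      cexp (((2 : ℂ) + (t : ℂ) * I - ((σ : ℂ) + ((T + H / 2 : ℝ) : ℂ) * I)) ^ 2 / (2 * (H : ℂ))) =
    (c * (((n : ℝ) ^ (-σ) : ℝ) : ℂ)) * d * kg H (2 - σ) (Real.log ((n : ℝ) * a / b)) (T + H / 2) t := by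
  have hn' : (n : ℂ) ≠ 0 := by exact_mod_cast hn
  have hnr : (0 : ℝ) < n := by exact_mod_cast Nat.pos_of_ne_zero hn
  have har : (0 : ℝ) < a := by exact_mod_cast Nat.pos_of_ne_zero ha
  have hbr : (0 : ℝ) < b := by exact_mod_cast Nat.pos_of_ne_zero hb
  have e1 : (n : ℂ) ^ ((2 : ℂ) + (t : ℂ) * I) =
      cexp (((Real.log n : ℝ) : ℂ) * ((2 : ℂ) + (t : ℂ) * I)) := by
    rw [cpow_def_of_ne_zero hn', ← natCast_log]
  have e2 : (((n : ℝ) ^ (-σ) : ℝ) : ℂ) = cexp (((Real.log n : ℝ) : ℂ) * (-(σ : ℂ))) := by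
    rw [Real.rpow_def_of_pos hnr, ofReal_exp]
    push_cast
    rfl
  have e3 : Real.log ((b : ℝ) / (a : ℝ)) = Real.log b - Real.log a := Real.log_div hbr.ne' har.ne'
  have e4 : Real.log ((n : ℝ) * a / b) = Real.log n + Real.log a - Real.log b := by
    rw [Real.log_div (by positivity) hbr.ne', Real.log_mul hnr.ne' har.ne']
  unfold kg
  rw [e1, e2, e3, e4, div_eq_mul_inv, ← Complex.exp_neg]
  have e5 : ∀ x1 x2 x3 y1 y2 : ℂ, x1 + x2 + x3 = y1 + y2 →
      c * cexp x1 * (d * cexp x2) * cexp x3 = c * cexp y1 * d * cexp y2 := by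
    intro x1 x2 x3 y1 y2 h
    calc c * cexp x1 * (d * cexp x2) * cexp x3 = c * d * cexp (x1 + x2 + x3) := by
          rw [Complex.exp_add, Complex.exp_add]; ring
      _ = c * d * cexp (y1 + y2) := by rw [h]
      _ = _ := by rw [Complex.exp_add]; ring
  apply e5
  push_cast
  ring

end TERM

theorem p_TERM : Stmt_TERM := by
  intro S N r σ T H hOk hσ hσ1 hH
  set Λ : ℕ → ℂ := fun n => ((ArithmeticFunction.vonMangoldt n : ℝ) : ℂ) with hΛ
  have hre : ∀ t : ℝ, ((2 : ℂ) + (t : ℂ) * I).re = 2 := by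
    intro t
    simp
  -- a bound for the weight
  obtain ⟨M, hM⟩ : ∃ M : ℝ, ∀ t ∈ Icc T (T + H), ‖TERM.W S r σ T H t‖ ≤ M := by
    obtain ⟨M, hM⟩ := isCompact_Icc.exists_bound_of_continuousOn
      ((TERM.W_cont S r σ T H).continuousOn (s := Icc T (T + H)))
    exact ⟨M, hM⟩
  have hM0 : 0 ≤ M := (norm_nonneg _).trans (hM T ⟨le_refl _, by linarith⟩)
  have hsum2 : Summable (fun n : ℕ => ‖LSeries.term Λ 2 n‖) := by
    have h := ArithmeticFunction.LSeriesSummable_vonMangoldt (s := 2) (by norm_num)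
    exact h.norm
  have hterm : ∀ (t : ℝ) (n : ℕ), ‖LSeries.term Λ ((2 : ℂ) + (t : ℂ) * I) n‖ = ‖LSeries.term Λ 2 n‖ := by
    intro t n
    rw [LSeries.norm_term_eq, LSeries.norm_term_eq, hre]
    simp
  have h1 : HasSum (fun n : ℕ => ∫ t in T..(T + H),
      LSeries.term Λ ((2 : ℂ) + (t : ℂ) * I) n * TERM.W S r σ T H t)
      (∫ t in T..(T + H), (-F ((2 : ℂ) + (t : ℂ) * I)) * TERM.W S r σ T H t) := by
    refine intervalIntegral.hasSum_integral_of_dominated_convergence
      (fun n _ => ‖LSeries.term Λ 2 n‖ * M) ?_ ?_ ?_ ?_ ?_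
    · intro n
      refine Continuous.aestronglyMeasurable ?_
      refine Continuous.mul ?_ (TERM.W_cont S r σ T H)
      rcases eq_or_ne n 0 with rfl | hn
      · simp only [LSeries.term_zero]
        exact continuous_const
      · simp only [LSeries.term_of_ne_zero hn]
        have hn' : (n : ℂ) ≠ 0 := by exact_mod_cast hn
        refine Continuous.div continuous_const ?_ ?_
        · refine Continuous.const_cpow (by fun_prop) (Or.inl hn')
        · intro t h0
          rw [cpow_eq_zero_iff] at h0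
          exact hn' h0.1
    · intro n
      refine Filter.Eventually.of_forall fun t ht => ?_
      rw [norm_mul, hterm]
      refine mul_le_mul_of_nonneg_left (hM t ?_) (norm_nonneg _)
      rw [uIoc_of_le (by linarith)] at ht
      exact ⟨ht.1.le, ht.2⟩
    · exact Filter.Eventually.of_forall fun t _ => hsum2.mul_right M
    · exact intervalIntegrable_const
    · refine Filter.Eventually.of_forall fun t _ => ?_
      refine HasSum.mul_right _ ?_
      have h2 : (1 : ℝ) < ((2 : ℂ) + (t : ℂ) * I).re := by rw [hre]; norm_num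
      have h3 := (ArithmeticFunction.LSeriesSummable_vonMangoldt h2).hasSum
      have h4 := ArithmeticFunction.LSeries_vonMangoldt_eq_deriv_riemannZeta_div h2
      have h5 : -F ((2 : ℂ) + (t : ℂ) * I) =
          LSeries (fun n => ((ArithmeticFunction.vonMangoldt n : ℝ) : ℂ)) ((2 : ℂ) + (t : ℂ) * I) := by
        rw [h4, F, neg_div]
      rw [h5]
      exact h3
  have h2 : (∫ t in T..(T + H), (-F ((2 : ℂ) + (t : ℂ) * I)) * TERM.W S r σ T H t) = -Rt S r σ T H := by
    unfold Rt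
    rw [← intervalIntegral.integral_neg]
    refine intervalIntegral.integral_congr fun t _ => ?_
    simp only [TERM.W]
    ring
  rw [h2] at h1
  convert h1 using 1
  funext n
  rcases eq_or_ne n 0 with rfl | hn
  · simp
  have h3 : ∀ t : ℝ, LSeries.term Λ ((2 : ℂ) + (t : ℂ) * I) n * TERM.W S r σ T H t =
      ∑ a ∈ S, ∑ b ∈ S, ((ArithmeticFunction.vonMangoldt n * (n : ℝ) ^ (-σ) : ℝ) : ℂ) *
        (r a * (starRingEnd ℂ) (r b)) *
        kg H (2 - σ) (Real.log ((n : ℝ) * a / b)) (T + H / 2) t := by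
    intro t
    rw [LSeries.term_of_ne_zero hn, TERM.W, A, ← mul_assoc, Finset.mul_sum, Finset.sum_mul]
    refine Finset.sum_congr rfl fun a ha => ?_
    rw [Finset.mul_sum, Finset.sum_mul]
    refine Finset.sum_congr rfl fun b hb => ?_
    have ha0 : a ≠ 0 := by have := (hOk.1 a ha).1; omega
    have hb0 : b ≠ 0 := by have := (hOk.1 b hb).1; omega
    rw [TERM.key n a b σ T H t hn ha0 hb0]
    push_cast
    rfl
  simp only [h3]
  have hc : ∀ a b : ℕ, Continuous (fun t : ℝ =>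
      ((ArithmeticFunction.vonMangoldt n * (n : ℝ) ^ (-σ) : ℝ) : ℂ) *
        (r a * (starRingEnd ℂ) (r b)) *
        kg H (2 - σ) (Real.log ((n : ℝ) * a / b)) (T + H / 2) t) := fun a b =>
    continuous_const.mul (TERM.kg_cont _ _ _ _)
  rw [intervalIntegral.integral_finsetSum (fun a _ =>
    (continuous_finsetSum S (fun b _ => hc a b)).intervalIntegrable _ _)]
  refine Finset.sum_congr rfl fun a _ => ?_
  rw [intervalIntegral.integral_finsetSum (fun b _ => (hc a b).intervalIntegrable _ _)]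
  refine Finset.sum_congr rfl fun b _ => ?_
  rw [intervalIntegral.integral_const_mul]

end Pool.Agent.Work.MP_e9b29d_win
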