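import Pool.Agent.Work.MP_e9b29d_win.B_GI
import Pool.Agent.Work.MP_e9b29d_win.B_TAIL
import Pool.Agent.Work.MP_e9b29d_win.B_SEP
import Pool.Agent.Work.MP_e9b29d_win.B_PT
import Pool.Agent.Work.MP_e9b29d_win.B_TERM
import Pool.Agent.Work.MP_e9b29d_win.B_RIGHT
import Pool.Agent.Work.MP_e9b29d_win.B_MEAN
import Pool.Agent.Work.MP_e9b29d_win.B_LEFT
import Pool.Agent.Work.MP_e9b29d_win.B_HOR
import Pool.Agent.Work.MP_e9b29d_win.B_CONT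
import Pool.Agent.Work.MP_e9b29d_win.B_MASTER
import Pool.Agent.Work.MP_e9b29d_win.B_DIAG
import Pool.Agent.Work.MP_e9b29d_win.B_CHEB
import Pool.Agent.Work.MP_e9b29d_win.B_FINB

/-! # Assembly -/

set_option autoImplicit false

open Complex MeasureTheory Set

namespace Pool.Agent.Work.MP_e9b29d_win

theorem tri (hB : Stmt_FINB) : ∃ c : ℝ, 0 < c ∧ ∀ b : ℝ, 0 < b → b < 1 → ∃ H₀ : ℝ, 0 < H₀ ∧
    ∀ σ T H φ : ℝ, 0 < σ → σ ≤ b → 1 ≤ T → H₀ ≤ H →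
      ∃ s : ℂ, σ ≤ s.re ∧ s.re ≤ 2 ∧ T ≤ s.im ∧ s.im ≤ T + H ∧
        (riemannZeta s = 0 ∨
          Real.exp (H / 20) < ‖deriv riemannZeta s / riemannZeta s‖ ∨
          (s.re = σ ∧ c * Real.log H ^ (1 - σ) ≤
            (Complex.exp (φ * Complex.I) * (deriv riemannZeta s / riemannZeta s)).re)) := by
  obtain ⟨c, hc, h⟩ := hB
  refine ⟨c, hc, fun b hb hb1 => ?_⟩
  obtain ⟨H₀, hH₀, h⟩ := h b hb hb1
  refine ⟨H₀, hH₀, fun σ T H φ hσ hσb hT hH => ?_⟩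
  by_cases hs : ∀ s : ℂ, σ ≤ s.re → s.re ≤ 2 → T ≤ s.im → s.im ≤ T + H →
      riemannZeta s ≠ 0 ∧ ‖F s‖ ≤ Real.exp (H / 20)
  · obtain ⟨t, ht, hc⟩ := h σ T H φ hσ hσb hT hH hs
    refine ⟨(σ : ℂ) + (t : ℂ) * I, by simp, by simp; linarith, by simpa using ht.1,
      by simpa using ht.2, Or.inr (Or.inr ⟨by simp, hc⟩)⟩
  · push Not at hs
    obtain ⟨s, h1, h2, h3, h4, h5⟩ := hs
    refine ⟨s, h1, h2, h3, h4, ?_⟩
    by_cases h0 : riemannZeta s = 0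
    · exact Or.inl h0
    · exact Or.inr (Or.inl (h5 h0))

theorem final : ∃ c : ℝ, 0 < c ∧ ∀ b : ℝ, 0 < b → b < 1 → ∃ H₀ : ℝ, 0 < H₀ ∧
    ∀ σ T H φ : ℝ, 0 < σ → σ ≤ b → 1 ≤ T → H₀ ≤ H →
      ∃ s : ℂ, σ ≤ s.re ∧ s.re ≤ 2 ∧ T ≤ s.im ∧ s.im ≤ T + H ∧
        (riemannZeta s = 0 ∨
          Real.exp (H / 20) < ‖deriv riemannZeta s / riemannZeta s‖ ∨
          (s.re = σ ∧ c * Real.log H ^ (1 - σ) ≤
            (Complex.exp (φ * Complex.I) * (deriv riemannZeta s / riemannZeta s)).re)) :=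
  tri (p_FINB (p_MASTER (stmt_RIGHT p_TERM (p_PT (p_TAIL p_GI) p_SEP))
    (p_LEFT (p_MEAN p_GI p_SEP)) p_HOR p_CONT) p_DIAG p_CHEB)

end Pool.Agent.Work.MP_e9b29d_win
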