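import Pool.Agent.Work.MP_e9b29d_win.Interface

/-!
# MP_e9b29d_nt, block CONT: the contour shift
-/

set_option autoImplicit false

open Complex Set MeasureTheory intervalIntegral

namespace Pool.Agent.Work.MP_e9b29d_win

theorem p_CONT : Stmt_CONT := by
  intro G σ T H B hσ hH hB hd hb
  have hrect : DifferentiableOn ℂ G
      (Set.uIcc ((σ : ℂ) + (T : ℂ) * I).re ((2 : ℂ) + ((T + H : ℝ) : ℂ) * I).re ×ℂ
        Set.uIcc ((σ : ℂ) + (T : ℂ) * I).im ((2 : ℂ) + ((T + H : ℝ) : ℂ) * I).im) := by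
    intro s hs
    rw [Complex.mem_reProdIm] at hs
    have e1 : ((σ : ℂ) + (T : ℂ) * I).re = σ := by simp
    have e2 : ((2 : ℂ) + ((T + H : ℝ) : ℂ) * I).re = 2 := by simp
    have e3 : ((σ : ℂ) + (T : ℂ) * I).im = T := by simp
    have e4 : ((2 : ℂ) + ((T + H : ℝ) : ℂ) * I).im = T + H := by simp
    rw [e1, e2, e3, e4, Set.uIcc_of_le hσ.le, Set.uIcc_of_le (by linarith : T ≤ T + H)] at hs
    exact (hd s hs.1.1 hs.1.2 hs.2.1 hs.2.2).differentiableWithinAt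
  have h := Complex.integral_boundary_rect_eq_zero_of_differentiableOn G ((σ : ℂ) + (T : ℂ) * I)
    ((2 : ℂ) + ((T + H : ℝ) : ℂ) * I) hrect
  have e1 : ((σ : ℂ) + (T : ℂ) * I).re = σ := by simp
  have e2 : ((2 : ℂ) + ((T + H : ℝ) : ℂ) * I).re = 2 := by simp
  have e3 : ((σ : ℂ) + (T : ℂ) * I).im = T := by simp
  have e4 : ((2 : ℂ) + ((T + H : ℝ) : ℂ) * I).im = T + H := by simp
  rw [e1, e2, e3, e4] at h
  have h1 : ‖∫ x in σ..2, G ((x : ℂ) + (T : ℂ) * I)‖ ≤ B * |2 - σ| :=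
    intervalIntegral.norm_integral_le_of_norm_le_const (fun x hx => by
      rw [Set.uIoc_of_le hσ.le] at hx
      exact (hb x hx.1.le hx.2).1)
  have h2 : ‖∫ x in σ..2, G ((x : ℂ) + ((T + H : ℝ) : ℂ) * I)‖ ≤ B * |2 - σ| :=
    intervalIntegral.norm_integral_le_of_norm_le_const (fun x hx => by
      rw [Set.uIoc_of_le hσ.le] at hx
      exact (hb x hx.1.le hx.2).2)
  rw [abs_of_pos (by linarith)] at h1 h2
  have e5 : (((2 : ℝ) : ℝ) : ℂ) = 2 := by norm_num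
  rw [e5] at h
  have h3 : I • ((∫ t in T..(T + H), G ((2 : ℂ) + (t : ℂ) * I)) - ∫ t in T..(T + H), G ((σ : ℂ) + (t : ℂ) * I)) =
      (∫ x in σ..2, G ((x : ℂ) + ((T + H : ℝ) : ℂ) * I)) - ∫ x in σ..2, G ((x : ℂ) + (T : ℂ) * I) := by
    rw [smul_sub]
    linear_combination h
  have h4 : ‖(∫ t in T..(T + H), G ((2 : ℂ) + (t : ℂ) * I)) - ∫ t in T..(T + H), G ((σ : ℂ) + (t : ℂ) * I)‖ =
      ‖(∫ x in σ..2, G ((x : ℂ) + ((T + H : ℝ) : ℂ) * I)) - ∫ x in σ..2, G ((x : ℂ) + (T : ℂ) * I)‖ := by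
    rw [← h3, norm_smul, Complex.norm_I, one_mul]
  rw [h4]
  refine le_trans (norm_sub_le _ _) ?_
  linarith

end Pool.Agent.Work.MP_e9b29d_win
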