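import Pool.Agent.Work.MP_e9b29d_win.Interface

set_option autoImplicit false

open Complex MeasureTheory Set

namespace Pool.Agent.Work.MP_e9b29d_win

namespace FINA

lemma growth (c H σ : ℝ) (hc : 0 < c) (hH1 : Real.exp 1 ≤ H) (hH2 : 800 * c ≤ H) (hσ : 0 < σ)
    (_hσ1 : σ < 1) : c * Real.log H ^ (1 - σ) ≤ Real.exp (H / 20) := by
  have hH0 : 0 < H := lt_of_lt_of_le (Real.exp_pos 1) hH1
  have hlog1 : 1 ≤ Real.log H := by
    rw [Real.le_log_iff_exp_le hH0]; exact hH1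
  have h1 : Real.log H ^ (1 - σ) ≤ Real.log H ^ (1 : ℝ) :=
    Real.rpow_le_rpow_of_exponent_le hlog1 (by linarith)
  rw [Real.rpow_one] at h1
  have h2 : Real.log H ≤ H := le_trans (Real.log_le_sub_one_of_pos hH0) (by linarith)
  have h3 := Real.quadratic_le_exp_of_nonneg (show 0 ≤ H / 20 by positivity)
  have h4 : c * Real.log H ^ (1 - σ) ≤ c * H := by
    apply mul_le_mul_of_nonneg_left _ hc.le
    linarith
  nlinarith

end FINA

/-- `FINA`. -/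
theorem p_FINA (hB : Stmt_FINB) : Stmt_FINA := by
  obtain ⟨c, hc, h⟩ := hB
  refine ⟨c, hc, fun b hb hb1 => ?_⟩
  obtain ⟨H₀, hH₀, h1⟩ := h b hb hb1
  refine ⟨max H₀ (max (Real.exp 1) (800 * c)), lt_max_of_lt_left hH₀, ?_⟩
  intro σ T H hσ hσb hT hH
  have hHa : H₀ ≤ H := le_trans (le_max_left _ _) hH
  have hHb : Real.exp 1 ≤ H := le_trans (le_trans (le_max_left _ _) (le_max_right _ _)) hH
  have hHc : 800 * c ≤ H := le_trans (le_trans (le_max_right _ _) (le_max_right _ _)) hH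
  have hg := FINA.growth c H σ hc hHb hHc hσ (lt_of_le_of_lt hσb hb1)
  by_cases hz : ∃ s : ℂ, σ ≤ s.re ∧ s.re ≤ 2 ∧ T ≤ s.im ∧ s.im ≤ T + H ∧ riemannZeta s = 0
  · obtain ⟨s, h2, h3, h4, h5, h6⟩ := hz
    exact ⟨s, h2, h3, h4, h5, Or.inl h6⟩
  by_cases hW : ∃ s : ℂ, σ ≤ s.re ∧ s.re ≤ 2 ∧ T ≤ s.im ∧ s.im ≤ T + H ∧
      Real.exp (H / 20) < ‖F s‖
  · obtain ⟨s, h2, h3, h4, h5, h6⟩ := hW
    exact ⟨s, h2, h3, h4, h5, Or.inr (le_trans hg h6.le)⟩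
  push Not at hz hW
  obtain ⟨t, ht, h7⟩ := h1 σ T H 0 hσ hσb hT hHa
    (fun s h2 h3 h4 h5 => ⟨hz s h2 h3 h4 h5, hW s h2 h3 h4 h5⟩)
  refine ⟨(σ : ℂ) + (t : ℂ) * I, ?_, ?_, ?_, ?_, Or.inr ?_⟩
  · simp
  · simp
    linarith
  · simpa using ht.1
  · simpa using ht.2
  · have h8 : cexp (((0 : ℝ) : ℂ) * I) = 1 := by simp
    rw [h8, one_mul] at h7
    exact le_trans h7 (Complex.re_le_norm _)

end Pool.Agent.Work.MP_e9b29d_win
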