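import Pool.Agent.Work.MP_e9b29d_win.Interface

/-!
# Block GI: the Gaussian integral (typed by helper81)
-/

set_option autoImplicit false

open Complex MeasureTheory Set

namespace Pool.Agent.Work.MP_e9b29d_win

namespace GI

theorem kg_eq (H κ l u t : ℝ) (hH : 0 < H) :
    kg H κ l u t = cexp ((-(1 / (2 * (H : ℂ)))) * (t : ℂ) ^ 2 +
      (I * (-(l : ℂ) + ((κ : ℂ) - (u : ℂ) * I) / (H : ℂ))) * (t : ℂ) +
      (-(l : ℂ) * (κ : ℂ) + ((κ : ℂ) - (u : ℂ) * I) ^ 2 / (2 * (H : ℂ)))) := by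
  unfold kg
  congr 1
  have hH' : (H : ℂ) ≠ 0 := by exact_mod_cast hH.ne'
  have hI : I ^ 2 = -1 := I_sq
  field_simp
  ring_nf
  rw [hI]
  ring

theorem re_neg (H : ℝ) (hH : 0 < H) : (-(1 / (2 * (H : ℂ)))).re < 0 := by
  have h1 : (-(1 / (2 * (H : ℂ)))) = ((-(1 / (2 * H)) : ℝ) : ℂ) := by
    push_cast
    ring
  rw [h1, ofReal_re]
  have : 0 < 1 / (2 * H) := by positivity
  linarith

end GI

open GI in
/-- GI. -/
theorem p_GI : Stmt_GI := by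
  intro H κ l u hH
  have hb := re_neg H hH
  have hH' : (H : ℂ) ≠ 0 := by exact_mod_cast hH.ne'
  have e : (fun t : ℝ => kg H κ l u t) = fun t : ℝ => cexp ((-(1 / (2 * (H : ℂ)))) * (t : ℂ) ^ 2 +
      (I * (-(l : ℂ) + ((κ : ℂ) - (u : ℂ) * I) / (H : ℂ))) * (t : ℂ) +
      (-(l : ℂ) * (κ : ℂ) + ((κ : ℂ) - (u : ℂ) * I) ^ 2 / (2 * (H : ℂ)))) :=
    funext (fun t => kg_eq H κ l u t hH)
  rw [e]
  refine ⟨integrable_cexp_quadratic' hb _ _, ?_⟩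
  rw [integral_cexp_quadratic hb]
  have h1 : ((Real.pi : ℂ) / -(-(1 / (2 * (H : ℂ))))) ^ (1 / 2 : ℂ) =
      ((√(2 * Real.pi * H) : ℝ) : ℂ) := by
    have h2 : ((Real.pi : ℂ) / -(-(1 / (2 * (H : ℂ))))) = ((2 * Real.pi * H : ℝ) : ℂ) := by
      push_cast
      field_simp
    have h3 : (1 / 2 : ℂ) = (((1 / 2 : ℝ)) : ℂ) := by push_cast; ring
    rw [h2, h3, ← ofReal_cpow (by positivity), ← Real.sqrt_eq_rpow]
  rw [h1]
  have h4 : (-(l : ℂ) * (κ : ℂ) + ((κ : ℂ) - (u : ℂ) * I) ^ 2 / (2 * (H : ℂ)) -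
      (I * (-(l : ℂ) + ((κ : ℂ) - (u : ℂ) * I) / (H : ℂ))) ^ 2 /
        (4 * (-(1 / (2 * (H : ℂ)))))) =
      -((l * u : ℝ) : ℂ) * I + ((-(l ^ 2 * H / 2) : ℝ) : ℂ) := by
    have hI : I ^ 2 = -1 := I_sq
    rw [mul_pow, hI]
    push_cast
    field_simp
    ring
  rw [h4, Complex.exp_add, ← ofReal_exp,
    ofReal_mul (√(2 * Real.pi * H)) (Real.exp (-(l ^ 2 * H / 2)))]
  ring

end Pool.Agent.Work.MP_e9b29d_win
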